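import Mathlib

/-!
# Representations with the same trace, one of which is absolutely irreducible, are conjugate
-/

set_option autoImplicit false

namespace Pool.Agent.L5helper16.GP

open Matrix

variable {Ω : Type*} [Field Ω] {n : ℕ} {N : Type*} [Group N]

/-- the matrices `R x` span the full matrix algebra -/
def Spans (R : N →* GL (Fin n) Ω) : Prop :=
  Submodule.span Ω (Set.range fun x : N => ((R x : GL (Fin n) Ω) : Matrix (Fin n) (Fin n) Ω)) = ⊤

/-- equality of matrices is tested against a spanning representation -/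
lemma eq_of_trace {R : N →* GL (Fin n) Ω} (hR : Spans R) {A B : Matrix (Fin n) (Fin n) Ω}
    (h : ∀ x : N, (A * (R x : GL (Fin n) Ω)).trace = (B * (R x : GL (Fin n) Ω)).trace) : A = B := by
  rw [Matrix.ext_iff_trace_mul_right]
  intro y
  have hy : y ∈ Submodule.span Ω (Set.range fun x : N => ((R x : GL (Fin n) Ω) : Matrix (Fin n) (Fin n) Ω)) := by
    rw [hR]; trivial
  induction hy using Submodule.span_induction with
  | mem y hy => obtain ⟨x, rfl⟩ := hy; exact h x
  | zero => simp
  | add y z _ _ h1 h2 => rw [mul_add, mul_add, trace_add, trace_add, h1, h2]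
  | smul a y _ h1 => rw [mul_smul_comm, mul_smul_comm, trace_smul, trace_smul, h1]

/-- the algebra homomorphism of the group algebra -/
noncomputable def alg (R : N →* GL (Fin n) Ω) : MonoidAlgebra Ω N →ₐ[Ω] Matrix (Fin n) (Fin n) Ω :=
  MonoidAlgebra.lift Ω (Matrix (Fin n) (Fin n) Ω) N ((Units.coeHom _).comp R)

lemma alg_single (R : N →* GL (Fin n) Ω) (x : N) (a : Ω) :
    alg R (MonoidAlgebra.single x a) = a • ((R x : GL (Fin n) Ω) : Matrix (Fin n) (Fin n) Ω) := by
  unfold alg
  rw [MonoidAlgebra.lift_single]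
  rfl

lemma alg_surj {R : N →* GL (Fin n) Ω} (hR : Spans R) : Function.Surjective (alg R) := by
  have h : (⊤ : Submodule Ω (Matrix (Fin n) (Fin n) Ω)) ≤ LinearMap.range (alg R).toLinearMap := by
    rw [← hR, Submodule.span_le]
    rintro y ⟨x, rfl⟩
    refine ⟨MonoidAlgebra.single x 1, ?_⟩
    rw [AlgHom.toLinearMap_apply, alg_single, one_smul]
  intro y
  obtain ⟨a, ha⟩ := h (x := y) trivial
  exact ⟨a, ha⟩

lemma trace_alg {R R' : N →* GL (Fin n) Ω}
    (h : ∀ x : N, ((R x : GL (Fin n) Ω) : Matrix (Fin n) (Fin n) Ω).trace =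
      ((R' x : GL (Fin n) Ω) : Matrix (Fin n) (Fin n) Ω).trace) (a : MonoidAlgebra Ω N) (y : N) :
    (alg R a * (R y : GL (Fin n) Ω)).trace = (alg R' a * (R' y : GL (Fin n) Ω)).trace := by
  induction a using MonoidAlgebra.induction_linear with
  | zero => simp
  | add f g h1 h2 => rw [map_add, map_add, add_mul, add_mul, trace_add, trace_add, h1, h2]
  | single x a =>
    rw [alg_single, alg_single, smul_mul_assoc, smul_mul_assoc, trace_smul, trace_smul]
    have e1 := h (x * y)
    rw [map_mul, map_mul] at e1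
    rw [show ((R x : GL (Fin n) Ω) : Matrix (Fin n) (Fin n) Ω) * (R y : GL (Fin n) Ω) =
      ((R x * R y : GL (Fin n) Ω) : Matrix (Fin n) (Fin n) Ω) from rfl,
      show ((R' x : GL (Fin n) Ω) : Matrix (Fin n) (Fin n) Ω) * (R' y : GL (Fin n) Ω) =
      ((R' x * R' y : GL (Fin n) Ω) : Matrix (Fin n) (Fin n) Ω) from rfl, e1]

lemma ker_le {R R' : N →* GL (Fin n) Ω} (hR : Spans R)
    (h : ∀ x : N, ((R x : GL (Fin n) Ω) : Matrix (Fin n) (Fin n) Ω).trace =
      ((R' x : GL (Fin n) Ω) : Matrix (Fin n) (Fin n) Ω).trace) {a : MonoidAlgebra Ω N}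
    (ha : alg R' a = 0) : alg R a = 0 := by
  apply eq_of_trace hR
  intro y
  rw [trace_alg h a y, ha, zero_mul, zero_mul]

/-- the second representation spans as well -/
lemma spans_of {R R' : N →* GL (Fin n) Ω} (hR : Spans R)
    (h : ∀ x : N, ((R x : GL (Fin n) Ω) : Matrix (Fin n) (Fin n) Ω).trace =
      ((R' x : GL (Fin n) Ω) : Matrix (Fin n) (Fin n) Ω).trace) : Spans R' := by
  have hle : LinearMap.range (alg R').toLinearMap ≤
      Submodule.span Ω (Set.range fun x : N => ((R' x : GL (Fin n) Ω) : Matrix (Fin n) (Fin n) Ω)) := by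
    rintro _ ⟨a, rfl⟩
    rw [AlgHom.toLinearMap_apply]
    induction a using MonoidAlgebra.induction_linear with
    | zero => rw [map_zero]; exact Submodule.zero_mem _
    | add f g h1 h2 => rw [map_add]; exact Submodule.add_mem _ h1 h2
    | single x a =>
      rw [alg_single]
      exact Submodule.smul_mem _ _ (Submodule.subset_span ⟨x, rfl⟩)
  have hfin : Module.finrank Ω (Matrix (Fin n) (Fin n) Ω) ≤
      Module.finrank Ω (LinearMap.range (alg R').toLinearMap) := by
    -- the range of `alg R'` surjects onto the matrices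
    let ψ : LinearMap.range (alg R').toLinearMap →ₗ[Ω] Matrix (Fin n) (Fin n) Ω :=
      ((LinearMap.ker (alg R').toLinearMap).liftQ (alg R).toLinearMap (by
        intro a ha
        rw [LinearMap.mem_ker] at ha ⊢
        exact ker_le hR h ha)).comp (alg R').toLinearMap.quotKerEquivRange.symm.toLinearMap
    have hψ : Function.Surjective ψ := by
      intro y
      obtain ⟨a, rfl⟩ := alg_surj hR y
      refine ⟨(alg R').toLinearMap.quotKerEquivRange (Submodule.Quotient.mk a), ?_⟩
      simp only [ψ, LinearMap.comp_apply, LinearEquiv.coe_coe, LinearEquiv.symm_apply_apply]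
      rfl
    exact LinearMap.finrank_le_finrank_of_surjective hψ |>.trans le_rfl
  have h1 : LinearMap.range (alg R').toLinearMap = ⊤ := by
    apply Submodule.eq_top_of_finrank_eq
    exact le_antisymm (Submodule.finrank_le _) hfin
  unfold Spans
  rw [eq_top_iff, ← h1]
  exact hle

/-- **Conjugacy.** A representation with the same trace as an absolutely irreducible one is conjugate to it. -/
theorem conj_of {R R' : N →* GL (Fin n) Ω} (hR : Spans R)
    (h : ∀ x : N, ((R x : GL (Fin n) Ω) : Matrix (Fin n) (Fin n) Ω).trace =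
      ((R' x : GL (Fin n) Ω) : Matrix (Fin n) (Fin n) Ω).trace) :
    ∃ W : GL (Fin n) Ω, ∀ x, W * R x * W⁻¹ = R' x := by
  have hR' := spans_of hR h
  have hk : RingHom.ker (alg R) = RingHom.ker (alg R') := by
    ext a
    rw [RingHom.mem_ker, RingHom.mem_ker]
    exact ⟨fun ha => ker_le hR' (fun x => (h x).symm) ha, fun ha => ker_le hR h ha⟩
  let e1 := Ideal.quotientKerAlgEquivOfSurjective (alg_surj hR)
  let e2 := Ideal.quotientKerAlgEquivOfSurjective (alg_surj hR')
  let e3 : (MonoidAlgebra Ω N ⧸ RingHom.ker (alg R)) ≃ₐ[Ω] (MonoidAlgebra Ω N ⧸ RingHom.ker (alg R')) :=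
    Ideal.quotientEquivAlgOfEq Ω hk
  let E : Matrix (Fin n) (Fin n) Ω ≃ₐ[Ω] Matrix (Fin n) (Fin n) Ω := (e1.symm.trans e3).trans e2
  have hE : ∀ a, E (alg R a) = alg R' a := by
    intro a
    have h1 : e1 (Ideal.Quotient.mk _ a) = alg R a := rfl
    have h2 : e2 (Ideal.Quotient.mk _ a) = alg R' a := rfl
    simp only [E, AlgEquiv.trans_apply]
    rw [← h1, AlgEquiv.symm_apply_apply]
    rw [← h2]
    rfl
  let F : Module.End Ω (Fin n → Ω) ≃ₐ[Ω] Module.End Ω (Fin n → Ω) :=
    (LinearMap.toMatrixAlgEquiv'.trans E).trans LinearMap.toMatrixAlgEquiv'.symm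
  obtain ⟨T, hT⟩ := AlgEquiv.eq_linearEquivConjAlgEquiv F
  let A : Matrix (Fin n) (Fin n) Ω := LinearMap.toMatrixAlgEquiv' T.toLinearMap
  let B : Matrix (Fin n) (Fin n) Ω := LinearMap.toMatrixAlgEquiv' T.symm.toLinearMap
  have hAB : A * B = 1 := by
    simp only [A, B]
    rw [← map_mul, ← map_one (LinearMap.toMatrixAlgEquiv' (R := Ω) (n := Fin n))]
    exact congrArg _ (LinearMap.ext fun x => T.apply_symm_apply x)
  have hBA : B * A = 1 := by
    simp only [A, B]
    rw [← map_mul, ← map_one (LinearMap.toMatrixAlgEquiv' (R := Ω) (n := Fin n))]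
    exact congrArg _ (LinearMap.ext fun x => T.symm_apply_apply x)
  refine ⟨⟨A, B, hAB, hBA⟩, fun x => ?_⟩
  apply Units.ext
  have h1 : alg R (MonoidAlgebra.single x 1) = ((R x : GL (Fin n) Ω) : Matrix (Fin n) (Fin n) Ω) := by
    rw [alg_single, one_smul]
  have h2 : alg R' (MonoidAlgebra.single x 1) = ((R' x : GL (Fin n) Ω) : Matrix (Fin n) (Fin n) Ω) := by
    rw [alg_single, one_smul]
  have h3 : E ((R x : GL (Fin n) Ω) : Matrix (Fin n) (Fin n) Ω) = ((R' x : GL (Fin n) Ω) : Matrix (Fin n) (Fin n) Ω) := by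
    rw [← h1, hE, h2]
  have h4 : F (LinearMap.toMatrixAlgEquiv'.symm ((R x : GL (Fin n) Ω) : Matrix (Fin n) (Fin n) Ω)) =
      LinearMap.toMatrixAlgEquiv'.symm ((R' x : GL (Fin n) Ω) : Matrix (Fin n) (Fin n) Ω) := by
    simp only [F, AlgEquiv.trans_apply, AlgEquiv.apply_symm_apply]
    rw [h3]
  have h5 := congrArg (fun f => LinearMap.toMatrixAlgEquiv' f) h4
  simp only [AlgEquiv.apply_symm_apply] at h5
  rw [← h5, hT]
  rw [LinearEquiv.conjAlgEquiv_apply]
  change A * ((R x : GL (Fin n) Ω) : Matrix (Fin n) (Fin n) Ω) * B = _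
  simp only [A, B]
  conv_lhs => rw [← LinearMap.toMatrixAlgEquiv'.apply_symm_apply ((R x : GL (Fin n) Ω) : Matrix (Fin n) (Fin n) Ω)]
  rw [← map_mul, ← map_mul]
  rfl

end Pool.Agent.L5helper16.GP
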