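import Mathlib

/-!
# The amalgam of a family of subgroups with conjugation relations

`V` is a group and `S` a family of subgroups.  `Amal S` is the group with generators `[v]`, `v ∈ V`, and relations
`[v] [w] = [v w]` if `v` and `w` are in one member of `S`, and `[g] [v] [g]⁻¹ = [g v g⁻¹]`.
-/

set_option autoImplicit false

namespace Pool.Agent.L5helper16.GP

section

variable {V : Type*} [Group V]

/-- the relations -/
def rels (S : Set (Subgroup V)) : Set (FreeGroup V) :=
  {x | ∃ H ∈ S, ∃ v ∈ H, ∃ w ∈ H, x = FreeGroup.of v * FreeGroup.of w * (FreeGroup.of (v * w))⁻¹} ∪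
  {x | ∃ g v : V, x = FreeGroup.of g * FreeGroup.of v * (FreeGroup.of g)⁻¹ * (FreeGroup.of (g * v * g⁻¹))⁻¹}

/-- the group with generators `[v]`, `v ∈ V`, and relations `[v] [w] = [v w]` if `v` and `w` are in one member of `S`,
and `[g] [v] [g]⁻¹ = [g v g⁻¹]` -/
abbrev Amal (S : Set (Subgroup V)) : Type _ := PresentedGroup (rels S)

/-- the generators -/
def br (S : Set (Subgroup V)) (v : V) : Amal S := PresentedGroup.of v

lemma br_mul {S : Set (Subgroup V)} {H : Subgroup V} (hH : H ∈ S) {v w : V} (hv : v ∈ H) (hw : w ∈ H) :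
    br S v * br S w = br S (v * w) := by
  have h : (PresentedGroup.mk (rels S)) (FreeGroup.of v * FreeGroup.of w * (FreeGroup.of (v * w))⁻¹) = 1 := by
    rw [PresentedGroup.mk_eq_one_iff]
    exact Subgroup.subset_normalClosure (Or.inl ⟨H, hH, v, hv, w, hw, rfl⟩)
  rw [map_mul, map_mul, map_inv, mul_inv_eq_one] at h
  exact h

lemma br_conj (S : Set (Subgroup V)) (g v : V) : br S g * br S v * (br S g)⁻¹ = br S (g * v * g⁻¹) := by
  have h : (PresentedGroup.mk (rels S)) (FreeGroup.of g * FreeGroup.of v * (FreeGroup.of g)⁻¹ *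
      (FreeGroup.of (g * v * g⁻¹))⁻¹) = 1 := by
    rw [PresentedGroup.mk_eq_one_iff]
    exact Subgroup.subset_normalClosure (Or.inr ⟨g, v, rfl⟩)
  rw [map_mul, map_mul, map_mul, map_inv, map_inv, mul_inv_eq_one] at h
  exact h

/-- maps with the defining properties extend to the amalgam -/
lemma lift_rels {S : Set (Subgroup V)} {B : Type*} [Group B] (σ : V → B)
    (h1 : ∀ H ∈ S, ∀ v ∈ H, ∀ w ∈ H, σ v * σ w = σ (v * w)) (h2 : ∀ g v, σ g * σ v * (σ g)⁻¹ = σ (g * v * g⁻¹)) :
    ∀ r ∈ rels S, FreeGroup.lift σ r = 1 := by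
  rintro r (⟨H, hH, v, hv, w, hw, rfl⟩ | ⟨g, v, rfl⟩)
  · simp only [map_mul, map_inv, FreeGroup.lift_apply_of]
    rw [h1 H hH v hv w hw, mul_inv_cancel]
  · simp only [map_mul, map_inv, FreeGroup.lift_apply_of]
    rw [h2 g v, mul_inv_cancel]

/-- the homomorphism of the amalgam -/
def ext {S : Set (Subgroup V)} {B : Type*} [Group B] (σ : V → B)
    (h1 : ∀ H ∈ S, ∀ v ∈ H, ∀ w ∈ H, σ v * σ w = σ (v * w)) (h2 : ∀ g v, σ g * σ v * (σ g)⁻¹ = σ (g * v * g⁻¹)) :
    Amal S →* B := PresentedGroup.toGroup (lift_rels σ h1 h2)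

lemma ext_br {S : Set (Subgroup V)} {B : Type*} [Group B] (σ : V → B)
    (h1 : ∀ H ∈ S, ∀ v ∈ H, ∀ w ∈ H, σ v * σ w = σ (v * w)) (h2 : ∀ g v, σ g * σ v * (σ g)⁻¹ = σ (g * v * g⁻¹))
    (v : V) : ext σ h1 h2 (br S v) = σ v :=
  PresentedGroup.toGroup.of (lift_rels σ h1 h2)

/-- the natural homomorphism `[v] ↦ v` -/
def toV (S : Set (Subgroup V)) : Amal S →* V :=
  ext (fun v => v) (fun _ _ _ _ _ _ => rfl) (fun _ _ => rfl)

lemma toV_br (S : Set (Subgroup V)) (v : V) : toV S (br S v) = v := ext_br _ _ _ v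

/-- the members of `S` generate all relations of `V` modulo conjugation: the natural homomorphism is injective -/
def Generates (S : Set (Subgroup V)) : Prop := Function.Injective (toV S)

lemma Generates.mult {S : Set (Subgroup V)} (hS : Generates S) {B : Type*} [Group B] (σ : V → B)
    (h1 : ∀ H ∈ S, ∀ v ∈ H, ∀ w ∈ H, σ v * σ w = σ (v * w)) (h2 : ∀ g v, σ g * σ v * (σ g)⁻¹ = σ (g * v * g⁻¹))
    (v w : V) : σ v * σ w = σ (v * w) := by
  have h : br S v * br S w = br S (v * w) := by
    apply hS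
    rw [map_mul, toV_br, toV_br, toV_br]
  have h3 := congrArg (ext σ h1 h2) h
  rwa [map_mul, ext_br, ext_br, ext_br] at h3

/-- the generators generate -/
lemma ind {S : Set (Subgroup V)} {p : Amal S → Prop} (h0 : ∀ v, p (br S v)) (h1 : p 1)
    (hm : ∀ x y, p x → p y → p (x * y)) (hi : ∀ x, p x → p x⁻¹) (x : Amal S) : p x := by
  obtain ⟨y, rfl⟩ := PresentedGroup.mk_surjective (rels S) x
  induction y using FreeGroup.induction_on with
  | C1 => rw [map_one]; exact h1
  | of v => exact h0 v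
  | inv_of v h => rw [map_inv]; exact hi _ h
  | mul x y h h' => rw [map_mul]; exact hm _ _ h h'

/-- if `v ↦ [v]` is multiplicative then the natural homomorphism is injective -/
lemma generates_of {S : Set (Subgroup V)} (h : ∀ v w, br S v * br S w = br S (v * w)) : Generates S := by
  have h1 : br S 1 = 1 := by
    have := h 1 1
    rw [mul_one] at this
    exact mul_eq_left.mp this
  have hs : ∀ x : Amal S, x = br S (toV S x) := by
    apply ind
    · intro v; rw [toV_br]
    · rw [map_one, h1]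
    · intro x y hx hy
      rw [map_mul, ← h, ← hx, ← hy]
    · intro x hx
      rw [map_inv]
      have h2 := h (toV S x) (toV S x)⁻¹
      rw [mul_inv_cancel, h1, ← hx] at h2
      exact (eq_inv_of_mul_eq_one_right h2).symm
  intro x y hxy
  rw [hs x, hs y, hxy]

/-- every element is conjugate into a member of `S` -/
def Covers (S : Set (Subgroup V)) : Prop := ∀ v : V, ∃ g : V, ∃ H ∈ S, g * v * g⁻¹ ∈ H

/-- **Sufficient condition.** `K` is normal, `V = K C` for a member `C` of `S`, and `[k] [v] = [k v]` for `k` in `K` and `v`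
in `K` or in `C`. -/
theorem generates_KC {S : Set (Subgroup V)} (K C : Subgroup V) [K.Normal] (hC : C ∈ S)
    (hKC : ∀ v : V, ∃ k ∈ K, ∃ c ∈ C, v = k * c) (h1 : ∀ k ∈ K, ∀ k' ∈ K, br S k * br S k' = br S (k * k'))
    (h2 : ∀ k ∈ K, ∀ c ∈ C, br S k * br S c = br S (k * c)) : Generates S := by
  apply generates_of
  intro v w
  obtain ⟨k, hk, c, hc, rfl⟩ := hKC v
  obtain ⟨k', hk', c', hc', rfl⟩ := hKC w
  have h3 : c * k' * c⁻¹ ∈ K := Subgroup.Normal.conj_mem inferInstance k' hk' c
  have e1 : br S c * br S k' = br S (c * k' * c⁻¹) * br S c := by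
    rw [← br_conj]; group
  rw [← h2 k hk c hc, ← h2 k' hk' c' hc']
  calc br S k * br S c * (br S k' * br S c') = br S k * (br S c * br S k') * br S c' := by group
    _ = (br S k * br S (c * k' * c⁻¹)) * (br S c * br S c') := by rw [e1]; group
    _ = br S (k * (c * k' * c⁻¹)) * br S (c * c') := by rw [h1 k hk _ h3, br_mul hC hc hc']
    _ = br S (k * (c * k' * c⁻¹) * (c * c')) := h2 _ (K.mul_mem hk h3) _ (C.mul_mem hc hc')
    _ = br S (k * c * (k' * c')) := by congr 1; group

/-- **Two subgroups suffice for Frobenius groups**, and in general if `K` is normal and every element is in `K` or is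
`x c x⁻¹` with `x ∈ K`, `c ∈ C`. -/
theorem generates_frob {S : Set (Subgroup V)} (K C : Subgroup V) [K.Normal] (hK : K ∈ S) (hC : C ∈ S)
    (h : ∀ v : V, v ∈ K ∨ ∃ x ∈ K, ∃ c ∈ C, v = x * c * x⁻¹) : Generates S := by
  have hn : ∀ g : V, ∀ x ∈ K, g * x * g⁻¹ ∈ K := fun g x hx => Subgroup.Normal.conj_mem inferInstance x hx g
  refine generates_KC K C hC ?_ (fun k hk k' hk' => br_mul hK hk hk') ?_
  · intro v
    rcases h v with hv | ⟨x, hx, c, hc, rfl⟩
    · exact ⟨v, hv, 1, C.one_mem, by simp⟩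
    · exact ⟨x * (c * x⁻¹ * c⁻¹), K.mul_mem hx (hn c _ (K.inv_mem hx)), c, hc, by group⟩
  · intro k hk c hc
    rcases h (k * c) with hv | ⟨x, hx, c', hc', he⟩
    · have hc1 : c ∈ K := by
        have := K.mul_mem (K.inv_mem hk) hv
        rwa [inv_mul_cancel_left] at this
      exact br_mul hK hk hc1
    · -- `k c = x c' x⁻¹`, and `y = c⁻¹ c'` is in `K` and in `C`
      have hy : c⁻¹ * c' ∈ K := by
        have h1 : c' = x⁻¹ * (k * c) * x := by rw [he]; group
        rw [h1]
        have : c⁻¹ * (x⁻¹ * (k * c) * x) = (c⁻¹ * (x⁻¹ * k) * c⁻¹⁻¹) * x := by group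
        rw [this]
        exact K.mul_mem (hn _ _ (K.mul_mem (K.inv_mem hx) hk)) hx
      have hyC : c⁻¹ * c' ∈ C := C.mul_mem (C.inv_mem hc) hc'
      have hx2 : c' * x⁻¹ * c'⁻¹ ∈ K := hn c' _ (K.inv_mem hx)
      have e1 : br S (x * c' * x⁻¹) = br S (x * (c' * x⁻¹ * c'⁻¹)) * br S c' := by
        rw [← br_conj, ← br_mul hK hx hx2, ← br_conj S c' x⁻¹]
        have e2 : br S x⁻¹ = (br S x)⁻¹ := by
          have h3 := br_mul (S := S) hK hx (K.inv_mem hx)
          have h4 := br_mul (S := S) hK K.one_mem K.one_mem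
          rw [mul_one] at h4
          rw [mul_inv_cancel, mul_eq_left.mp h4] at h3
          exact eq_inv_of_mul_eq_one_right h3
        rw [e2]; group
      have e3 : br S c' = br S c * br S (c⁻¹ * c') := by
        rw [br_mul hC hc hyC]; congr 1; group
      have e4 : br S c * br S (c⁻¹ * c') = br S (c * (c⁻¹ * c') * c⁻¹) * br S c := by
        rw [← br_conj]; group
      have hz : c * (c⁻¹ * c') * c⁻¹ ∈ K := hn c _ hy
      rw [he, e1, e3, e4, ← mul_assoc, br_mul hK (K.mul_mem hx hx2) hz]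
      congr 1
      congr 1
      have : k = x * c' * x⁻¹ * c⁻¹ := by rw [← he]; group
      rw [this]; group

/-- **Subfields of one Galois extension and one more field**: the members of `S₁` contain the normal subgroup `D` and cover
`V` up to conjugation, and `V = D C` for one more member `C`. -/
theorem generates_add {S : Set (Subgroup V)} (D C : Subgroup V) [D.Normal] (hC : C ∈ S)
    (h : ∀ v : V, ∃ g : V, ∃ H ∈ S, D ≤ H ∧ g * v * g⁻¹ ∈ H) (hDC : ∀ v : V, ∃ d ∈ D, ∃ c ∈ C, v = d * c) :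
    Generates S := by
  have hn : ∀ g : V, ∀ x ∈ D, g * x * g⁻¹ ∈ D := fun g x hx => Subgroup.Normal.conj_mem inferInstance x hx g
  have key : ∀ d ∈ D, ∀ v : V, br S d * br S v = br S (d * v) := by
    intro d hd v
    obtain ⟨g, H, hH, hDH, hg⟩ := h v
    have h1 := br_mul hH (hDH (hn g d hd)) hg
    have e : g * d * g⁻¹ * (g * v * g⁻¹) = g * (d * v) * g⁻¹ := by group
    rw [e, ← br_conj, ← br_conj, ← br_conj] at h1
    have h2 : br S g * (br S d * br S v) * (br S g)⁻¹ = br S g * br S (d * v) * (br S g)⁻¹ := by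
      rw [← h1]; group
    have h3 := mul_right_cancel h2
    exact mul_left_cancel h3
  exact generates_KC D C hC hDC (fun k hk k' _ => key k hk k') (fun k hk c _ => key k hk c)

end

end Pool.Agent.L5helper16.GP
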