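import Pool.Agent.L5helper16.GP.A
import Pool.Agent.L5helper16.GP.B

/-!
# Patching of representations which are absolutely irreducible on a common open normal subgroup
-/

set_option autoImplicit false

namespace Pool.Agent.L5helper16.GP

open Matrix Topology

section lift

variable {Γ V G : Type*} [Group Γ] [Group V] [Group G] (π : Γ →* V) (hπ : Function.Surjective π)
  {S : Set (Subgroup V)} (hc : Covers S) (s : Γ → G)
  (ha : ∀ H ∈ S, ∀ γ ∈ H.comap π, ∀ δ ∈ H.comap π, s γ * s δ = s (γ * δ))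
  (hb : ∀ δ γ, s δ * s γ * (s δ)⁻¹ = s (δ * γ * δ⁻¹))

include hπ hc ha hb in
lemma s_ker (γ x : Γ) (hx : x ∈ π.ker) : s γ * s x = s (γ * x) := by
  obtain ⟨g, H, hH, hg⟩ := hc (π γ)
  obtain ⟨δ, rfl⟩ := hπ g
  have hx1 : δ * x * δ⁻¹ ∈ H.comap π := by
    rw [Subgroup.mem_comap, map_mul, map_mul, MonoidHom.mem_ker.mp hx, mul_one, map_inv, mul_inv_cancel]
    exact H.one_mem
  have h1 := ha H hH (δ * γ * δ⁻¹) (by
    rw [Subgroup.mem_comap, map_mul, map_mul, map_inv]; exact hg) _ hx1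
  rw [show δ * γ * δ⁻¹ * (δ * x * δ⁻¹) = δ * (γ * x) * δ⁻¹ by group, ← hb, ← hb, ← hb] at h1
  have h2 : s δ * (s γ * s x) * (s δ)⁻¹ = s δ * s (γ * x) * (s δ)⁻¹ := by
    rw [← h1]; group
  exact mul_left_cancel (mul_right_cancel h2)

include hc ha in
lemma s_one : s 1 = 1 := by
  obtain ⟨g, H, hH, -⟩ := hc 1
  have h := ha H hH 1 (Subgroup.one_mem _) 1 (Subgroup.one_mem _)
  rw [mul_one] at h
  exact mul_eq_left.mp h

/-- the subgroup of the pairs `(x, s x)`, `x` in the kernel -/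
def graph (hm : ∀ γ x, x ∈ π.ker → s γ * s x = s (γ * x)) (h1 : s 1 = 1) : Subgroup (Γ × G) where
  carrier := {p | p.1 ∈ π.ker ∧ p.2 = s p.1}
  one_mem' := ⟨π.ker.one_mem, h1.symm⟩
  mul_mem' := by
    rintro a b ⟨ha1, ha2⟩ ⟨hb1, hb2⟩
    refine ⟨π.ker.mul_mem ha1 hb1, ?_⟩
    rw [Prod.snd_mul, Prod.fst_mul, ← hm _ _ hb1, ha2, hb2]
  inv_mem' := by
    rintro a ⟨ha1, ha2⟩
    refine ⟨π.ker.inv_mem ha1, ?_⟩
    have h := hm a.1 a.1⁻¹ (π.ker.inv_mem ha1)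
    rw [mul_inv_cancel, h1] at h
    rw [Prod.snd_inv, Prod.fst_inv, ha2]
    exact inv_eq_of_mul_eq_one_right h

include hπ hc ha hb in
/-- **Lifting.** -/
theorem lift_mult (hS : Generates S) (γ δ : Γ) : s γ * s δ = s (γ * δ) := by
  have hm := fun γ x hx => s_ker π hπ hc s ha hb γ x hx
  have h1 := s_one π hc s ha
  set N' := graph π s hm h1 with hN'
  have hmem : ∀ p : Γ × G, p ∈ N' ↔ p.1 ∈ π.ker ∧ p.2 = s p.1 := fun p => Iff.rfl
  have hnor : ∀ γ : Γ, ((γ, s γ) : Γ × G) ∈ Subgroup.normalizer (N' : Set (Γ × G)) := by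
    intro γ
    rw [Subgroup.mem_normalizer_iff]
    rintro ⟨x, y⟩
    rw [hmem, hmem]
    simp only [Prod.fst_mul, Prod.snd_mul, Prod.fst_inv, Prod.snd_inv]
    have hker : x ∈ π.ker ↔ γ * x * γ⁻¹ ∈ π.ker := by
      rw [MonoidHom.mem_ker, MonoidHom.mem_ker, map_mul, map_mul, map_inv]
      constructor
      · intro h; rw [h]; group
      · intro h
        have : π x = (π γ)⁻¹ * (π γ * π x * (π γ)⁻¹) * π γ := by group
        rw [this, h]; group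
    rw [← hker]
    refine and_congr_right fun hx => ?_
    rw [← hb]
    constructor
    · rintro rfl; rfl
    · intro h; exact mul_left_cancel (mul_right_cancel h)
  set 𝒢 := Subgroup.normalizer (N' : Set (Γ × G)) with h𝒢
  let s' : Γ → 𝒢 := fun γ => ⟨(γ, s γ), hnor γ⟩
  let B := 𝒢 ⧸ N'.subgroupOf 𝒢
  have heq : ∀ a b : 𝒢, (QuotientGroup.mk a : B) = QuotientGroup.mk b ↔ ((a⁻¹ * b : 𝒢) : Γ × G) ∈ N' := by
    intro a b
    rw [QuotientGroup.eq, Subgroup.mem_subgroupOf]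
  let σ : V → B := fun v => QuotientGroup.mk (s' (Function.surjInv hπ v))
  have hσ : ∀ γ : Γ, σ (π γ) = QuotientGroup.mk (s' γ) := by
    intro γ
    set ε := Function.surjInv hπ (π γ) with hε
    have hε1 : π ε = π γ := Function.surjInv_eq hπ (π γ)
    have hx : ε⁻¹ * γ ∈ π.ker := by
      rw [MonoidHom.mem_ker, map_mul, map_inv, hε1, inv_mul_cancel]
    change (QuotientGroup.mk (s' ε) : B) = _
    rw [heq, hmem]
    refine ⟨hx, ?_⟩
    change (s ε)⁻¹ * s γ = s (ε⁻¹ * γ)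
    rw [inv_mul_eq_iff_eq_mul, hm _ _ hx, mul_inv_cancel_left]
  have hmul := hS.mult σ (by
    intro H hH v hv w hw
    obtain ⟨γ, rfl⟩ := hπ v
    obtain ⟨δ, rfl⟩ := hπ w
    rw [← map_mul, hσ, hσ, hσ, ← QuotientGroup.mk_mul]
    congr 1
    apply Subtype.ext
    exact Prod.ext rfl (ha H hH γ hv δ hw)) (by
    intro g v
    obtain ⟨γ, rfl⟩ := hπ g
    obtain ⟨δ, rfl⟩ := hπ v
    rw [← map_inv, ← map_mul, ← map_mul, hσ, hσ, hσ, ← QuotientGroup.mk_inv, ← QuotientGroup.mk_mul,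
      ← QuotientGroup.mk_mul]
    congr 1
    apply Subtype.ext
    exact Prod.ext rfl (hb γ δ))
  have h2 := hmul (π γ) (π δ)
  rw [← map_mul, hσ, hσ, hσ, ← QuotientGroup.mk_mul, heq, hmem] at h2
  obtain ⟨-, h3⟩ := h2
  have h4 : ((((s' γ * s' δ)⁻¹ * s' (γ * δ) : 𝒢) : Γ × G)).1 = 1 := by
    change (γ * δ)⁻¹ * (γ * δ) = 1
    group
  rw [h4, h1] at h3
  have h5 : (s γ * s δ)⁻¹ * s (γ * δ) = 1 := h3
  exact (inv_mul_eq_one.mp h5)

end lift

section patch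

variable {Γ V X Ω : Type*} [Group Γ] [TopologicalSpace Γ] [IsTopologicalGroup Γ] [Group V] [MulAction Γ X]
  [Field Ω] [TopologicalSpace Ω] [IsTopologicalRing Ω] [T2Space Ω] {n : ℕ}

/-- `r` is a continuous representation of the preimage of `H` such that the Frobenius `fr Q ^ k` of the place of the field
of `H` below `Q` (`k` minimal, the residue degree) has the characteristic polynomial of `c Q ^ k` -/
def Attached (π : Γ →* V) (fr : X → Γ) (c : X → GL (Fin n) Ω) (H : Subgroup V)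
    (r : H.comap π →* GL (Fin n) Ω) : Prop :=
  Continuous r ∧ ∀ (Q : X) (k : ℕ) (hk : fr Q ^ k ∈ H.comap π), 0 < k → (∀ j, 0 < j → j < k → fr Q ^ j ∉ H.comap π) →
    ((r ⟨fr Q ^ k, hk⟩ : GL (Fin n) Ω) : Matrix (Fin n) (Fin n) Ω).charpoly =
      ((c Q : Matrix (Fin n) (Fin n) Ω) ^ k).charpoly

/-- the restriction to the kernel -/
def resK (π : Γ →* V) (H : Subgroup V) (r : H.comap π →* GL (Fin n) Ω) : π.ker →* GL (Fin n) Ω :=
  r.comp (Subgroup.inclusion (fun x hx => by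
    rw [Subgroup.mem_comap, MonoidHom.mem_ker.mp hx]; exact H.one_mem))

omit [TopologicalSpace Γ] [IsTopologicalGroup Γ] [MulAction Γ X] [TopologicalSpace Ω] [IsTopologicalRing Ω] [T2Space Ω] in
lemma trace_of_charpoly {A B : Matrix (Fin n) (Fin n) Ω} (h : A.charpoly = B.charpoly) : A.trace = B.trace := by
  rcases Nat.eq_zero_or_pos n with rfl | hn
  · simp [Matrix.trace]
  · have : Nonempty (Fin n) := ⟨⟨0, hn⟩⟩
    rw [Matrix.trace_eq_neg_charpoly_coeff, Matrix.trace_eq_neg_charpoly_coeff, h]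

omit [TopologicalSpace Γ] [IsTopologicalGroup Γ] [MulAction Γ X] [TopologicalSpace Ω] [IsTopologicalRing Ω] [T2Space Ω] in
lemma charpoly_conj (W A : GL (Fin n) Ω) : ((W⁻¹ * A * W : GL (Fin n) Ω) : Matrix (Fin n) (Fin n) Ω).charpoly =
    (A : Matrix (Fin n) (Fin n) Ω).charpoly := by
  rw [Units.val_mul, Units.val_mul, Matrix.charpoly_mul_comm, ← mul_assoc, ← Units.val_mul, mul_inv_cancel,
    Units.val_one, one_mul]

variable {π : Γ →* V} (hopen : IsOpen (π.ker : Set Γ)) {fr : X → Γ}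
  (hfr : ∀ (γ : Γ) (Q : X), fr (γ • Q) = γ * fr Q * γ⁻¹) (hd : Dense (Set.range fr))
  {c : X → GL (Fin n) Ω} (hcc : ∀ (γ : Γ) (Q : X), (c (γ • Q) : Matrix (Fin n) (Fin n) Ω).charpoly =
    (c Q : Matrix (Fin n) (Fin n) Ω).charpoly)

include hopen in
omit [MulAction Γ X] in
lemma comap_open (H : Subgroup V) : IsOpen ((H.comap π : Subgroup Γ) : Set Γ) :=
  Subgroup.isOpen_mono (H₁ := π.ker) (fun x hx => by
    rw [Subgroup.mem_comap, MonoidHom.mem_ker.mp hx]; exact H.one_mem) hopen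

include hfr hcc in
omit [IsTopologicalGroup Γ] [IsTopologicalRing Ω] [T2Space Ω] in
lemma charpoly_fr {H : Subgroup V} {r : H.comap π →* GL (Fin n) Ω} (hr : Attached π fr c H r) (δ : Γ) (Q : X)
    (h : δ * fr Q * δ⁻¹ ∈ H.comap π) :
    ((r ⟨δ * fr Q * δ⁻¹, h⟩ : GL (Fin n) Ω) : Matrix (Fin n) (Fin n) Ω).charpoly =
      (c Q : Matrix (Fin n) (Fin n) Ω).charpoly := by
  have h1 : fr (δ • Q) ^ 1 ∈ H.comap π := by rw [pow_one, hfr]; exact h
  have h2 := hr.2 (δ • Q) 1 h1 one_pos (fun j h3 h4 => by omega)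
  have e : (⟨fr (δ • Q) ^ 1, h1⟩ : H.comap π) = ⟨δ * fr Q * δ⁻¹, h⟩ := by
    apply Subtype.ext
    change fr (δ • Q) ^ 1 = δ * fr Q * δ⁻¹
    rw [pow_one, hfr]
  rw [e] at h2
  rw [h2, pow_one, hcc]

include hopen hfr hd hcc in
/-- the traces of attached representations agree -/
lemma trace_eq {H H' : Subgroup V} {r : H.comap π →* GL (Fin n) Ω} {r' : H'.comap π →* GL (Fin n) Ω}
    (hr : Attached π fr c H r) (hr' : Attached π fr c H' r') (δ ε γ : Γ) (h : δ * γ * δ⁻¹ ∈ H.comap π)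
    (h' : ε * γ * ε⁻¹ ∈ H'.comap π) :
    ((r ⟨δ * γ * δ⁻¹, h⟩ : GL (Fin n) Ω) : Matrix (Fin n) (Fin n) Ω).trace =
      ((r' ⟨ε * γ * ε⁻¹, h'⟩ : GL (Fin n) Ω) : Matrix (Fin n) (Fin n) Ω).trace := by
  let U : Set Γ := {x | δ * x * δ⁻¹ ∈ H.comap π ∧ ε * x * ε⁻¹ ∈ H'.comap π}
  have hU : IsOpen U := by
    have h1 : IsOpen {x : Γ | δ * x * δ⁻¹ ∈ H.comap π} :=
      (comap_open hopen H).preimage (by fun_prop)
    have h2 : IsOpen {x : Γ | ε * x * ε⁻¹ ∈ H'.comap π} :=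
      (comap_open hopen H').preimage (by fun_prop)
    exact h1.inter h2
  let F : U → Ω := fun x => ((r ⟨δ * x * δ⁻¹, x.2.1⟩ : GL (Fin n) Ω) : Matrix (Fin n) (Fin n) Ω).trace
  let F' : U → Ω := fun x => ((r' ⟨ε * x * ε⁻¹, x.2.2⟩ : GL (Fin n) Ω) : Matrix (Fin n) (Fin n) Ω).trace
  have hF : Continuous F := by
    apply Continuous.matrix_trace
    apply Units.continuous_val.comp
    apply hr.1.comp
    apply Continuous.subtype_mk
    fun_prop
  have hF' : Continuous F' := by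
    apply Continuous.matrix_trace
    apply Units.continuous_val.comp
    apply hr'.1.comp
    apply Continuous.subtype_mk
    fun_prop
  have hdU : Dense ((fun x : U => (x : Γ)) ⁻¹' Set.range fr) :=
    hd.preimage hU.isOpenEmbedding_subtypeVal.isOpenMap
  have he : F = F' := by
    apply Continuous.ext_on hdU hF hF'
    rintro ⟨x, hx⟩ ⟨Q, hQ⟩
    simp only at hQ
    subst hQ
    apply trace_of_charpoly
    rw [charpoly_fr hfr hcc hr δ Q hx.1, charpoly_fr hfr hcc hr' ε Q hx.2]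
  exact congrFun he ⟨γ, h, h'⟩


set_option maxHeartbeats 1000000 in
include hopen hfr hd hcc in
/-- **Patching.** -/
theorem patch (hπ : Function.Surjective π) {S : Set (Subgroup V)} (hc : Covers S) (hS : Generates S)
    (hr : ∀ H ∈ S, ∃ r : H.comap π →* GL (Fin n) Ω, Attached π fr c H r)
    (hirr : ∃ H ∈ S, ∃ r : H.comap π →* GL (Fin n) Ω, Attached π fr c H r ∧ Spans (resK π H r)) :
    ∃ s : Γ →* GL (Fin n) Ω, Continuous s ∧
      (∀ Q : X, ((s (fr Q) : GL (Fin n) Ω) : Matrix (Fin n) (Fin n) Ω).charpoly =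
        (c Q : Matrix (Fin n) (Fin n) Ω).charpoly) ∧
      Spans (s.comp π.ker.subtype) ∧
      ∀ (H : Subgroup V) (r : H.comap π →* GL (Fin n) Ω), Attached π fr c H r →
        ∃ W : GL (Fin n) Ω, ∀ γ : H.comap π, s γ = W⁻¹ * r γ * W := by
  classical
  obtain ⟨H₀, hH₀, r₀, hr₀, hsp⟩ := hirr
  choose r hr using hr
  set R := resK π H₀ r₀ with hR
  -- the class function
  have hcov : ∀ γ : Γ, ∃ δ : Γ, ∃ H : Subgroup V, ∃ hH : H ∈ S, δ * γ * δ⁻¹ ∈ H.comap π := by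
    intro γ
    obtain ⟨g, H, hH, hg⟩ := hc (π γ)
    obtain ⟨δ, rfl⟩ := hπ g
    exact ⟨δ, H, hH, by rw [Subgroup.mem_comap, map_mul, map_mul, map_inv]; exact hg⟩
  choose d Hd hHd hd' using hcov
  let T : Γ → Ω := fun γ => ((r (Hd γ) (hHd γ) ⟨d γ * γ * (d γ)⁻¹, hd' γ⟩ : GL (Fin n) Ω) :
    Matrix (Fin n) (Fin n) Ω).trace
  have hT : ∀ {H : Subgroup V} {r' : H.comap π →* GL (Fin n) Ω}, Attached π fr c H r' → ∀ (δ γ : Γ)
      (h : δ * γ * δ⁻¹ ∈ H.comap π),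
      T γ = ((r' ⟨δ * γ * δ⁻¹, h⟩ : GL (Fin n) Ω) : Matrix (Fin n) (Fin n) Ω).trace := by
    intro H r' hr' δ γ h
    exact trace_eq hopen hfr hd hcc (hr (Hd γ) (hHd γ)) hr' (d γ) δ γ (hd' γ) h
  have hkm : ∀ (H : Subgroup V) (δ x : Γ), x ∈ π.ker → δ * x * δ⁻¹ ∈ H.comap π := by
    intro H δ x hx
    rw [Subgroup.mem_comap, map_mul, map_mul, MonoidHom.mem_ker.mp hx, mul_one, map_inv, mul_inv_cancel]
    exact H.one_mem
  -- intertwiners
  have hW : ∀ {H : Subgroup V} {r' : H.comap π →* GL (Fin n) Ω}, Attached π fr c H r' → ∀ δ : Γ,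
      ∃ W : GL (Fin n) Ω, (∀ x : π.ker, W * R x * W⁻¹ = r' ⟨δ * x * δ⁻¹, hkm H δ x x.2⟩) ∧
        ∀ (γ : Γ) (h : δ * γ * δ⁻¹ ∈ H.comap π) (x : π.ker),
          ((W⁻¹ * r' ⟨δ * γ * δ⁻¹, h⟩ * W * R x : GL (Fin n) Ω) : Matrix (Fin n) (Fin n) Ω).trace =
            T (γ * x) := by
    intro H r' hr' δ
    let R' : π.ker →* GL (Fin n) Ω :=
      { toFun := fun x => r' ⟨δ * x * δ⁻¹, hkm H δ x x.2⟩
        map_one' := by
          rw [← map_one r']
          congr 1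
          apply Subtype.ext
          change δ * 1 * δ⁻¹ = 1
          group
        map_mul' := fun x y => by
          rw [← map_mul]
          congr 1
          apply Subtype.ext
          change δ * (x * y) * δ⁻¹ = δ * x * δ⁻¹ * (δ * y * δ⁻¹)
          group }
    have htr : ∀ x : π.ker, ((R x : GL (Fin n) Ω) : Matrix (Fin n) (Fin n) Ω).trace =
        ((R' x : GL (Fin n) Ω) : Matrix (Fin n) (Fin n) Ω).trace := by
      intro x
      have h1 : (1 : Γ) * x * 1⁻¹ ∈ H₀.comap π := hkm H₀ 1 x x.2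
      have h2 := hT hr₀ 1 x h1
      have h3 := hT hr' δ x (hkm H δ x x.2)
      rw [h3] at h2
      have h4 : R' x = r' ⟨δ * x * δ⁻¹, hkm H δ x x.2⟩ := rfl
      rw [h4, h2]
      have h5 : R x = r₀ ⟨(1 : Γ) * x * 1⁻¹, h1⟩ := by
        change r₀ _ = r₀ _
        congr 1
        apply Subtype.ext
        change (x : Γ) = 1 * x * 1⁻¹
        group
      rw [h5]
    obtain ⟨W, hW⟩ := conj_of hsp htr
    refine ⟨W, hW, fun γ h x => ?_⟩
    have h1 : R x = W⁻¹ * r' ⟨δ * x * δ⁻¹, hkm H δ x x.2⟩ * W := by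
      rw [← show W * R x * W⁻¹ = r' ⟨δ * x * δ⁻¹, hkm H δ x x.2⟩ from hW x]; group
    have h2 : δ * (γ * x) * δ⁻¹ ∈ H.comap π := by
      have : δ * (γ * x) * δ⁻¹ = δ * γ * δ⁻¹ * (δ * x * δ⁻¹) := by group
      rw [this]
      exact Subgroup.mul_mem _ h (hkm H δ x x.2)
    rw [hT hr' δ (γ * x) h2, h1]
    have h3 : W⁻¹ * r' ⟨δ * γ * δ⁻¹, h⟩ * W * (W⁻¹ * r' ⟨δ * x * δ⁻¹, hkm H δ x x.2⟩ * W) =
        W⁻¹ * (r' ⟨δ * (γ * x) * δ⁻¹, h2⟩) * W := by
      have h4 : r' ⟨δ * (γ * x) * δ⁻¹, h2⟩ = r' ⟨δ * γ * δ⁻¹, h⟩ * r' ⟨δ * x * δ⁻¹, hkm H δ x x.2⟩ := by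
        rw [← map_mul]
        congr 1
        apply Subtype.ext
        change δ * (γ * x) * δ⁻¹ = δ * γ * δ⁻¹ * (δ * x * δ⁻¹)
        group
      rw [h4]; group
    rw [h3, Units.val_mul, Units.val_mul, Matrix.trace_mul_comm, ← mul_assoc, ← Units.val_mul, mul_inv_cancel,
      Units.val_one, one_mul]
  -- the map
  have hex : ∀ γ : Γ, ∃ M : GL (Fin n) Ω, ∀ x : π.ker,
      ((M * R x : GL (Fin n) Ω) : Matrix (Fin n) (Fin n) Ω).trace = T (γ * x) := by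
    intro γ
    obtain ⟨W, -, h2⟩ := hW (hr (Hd γ) (hHd γ)) (d γ)
    exact ⟨_, fun x => h2 γ (hd' γ) x⟩
  choose s hs using hex
  have huniq : ∀ (γ : Γ) (M : GL (Fin n) Ω), (∀ x : π.ker,
      ((M * R x : GL (Fin n) Ω) : Matrix (Fin n) (Fin n) Ω).trace = T (γ * x)) → s γ = M := by
    intro γ M hM
    apply Units.ext
    apply eq_of_trace hsp
    intro x
    have h1 := hs γ x
    have h2 := hM x
    rw [Units.val_mul] at h1 h2
    rw [h1, h2]
  have hform : ∀ {H : Subgroup V} {r' : H.comap π →* GL (Fin n) Ω}, Attached π fr c H r' → ∀ δ : Γ,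
      ∃ W : GL (Fin n) Ω, (∀ x : π.ker, W * R x * W⁻¹ = r' ⟨δ * x * δ⁻¹, hkm H δ x x.2⟩) ∧
        ∀ (γ : Γ) (h : δ * γ * δ⁻¹ ∈ H.comap π), s γ = W⁻¹ * r' ⟨δ * γ * δ⁻¹, h⟩ * W := by
    intro H r' hr' δ
    obtain ⟨W, h1, h2⟩ := hW hr' δ
    exact ⟨W, h1, fun γ h => huniq γ _ (fun x => h2 γ h x)⟩
  -- the map on the kernel
  have hsk : ∀ x : π.ker, s x = R x := by
    intro x
    obtain ⟨W, h1, h2⟩ := hform hr₀ 1
    rw [h2 x (hkm H₀ 1 x x.2), ← h1 x]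
    group
  -- multiplicative on the members
  have hmul1 : ∀ {H : Subgroup V} {r' : H.comap π →* GL (Fin n) Ω}, Attached π fr c H r' → ∀ δ γ γ' : Γ,
      δ * γ * δ⁻¹ ∈ H.comap π → δ * γ' * δ⁻¹ ∈ H.comap π → s γ * s γ' = s (γ * γ') := by
    intro H r' hr' δ γ γ' h h'
    obtain ⟨W, -, h2⟩ := hform hr' δ
    have h3 : δ * (γ * γ') * δ⁻¹ ∈ H.comap π := by
      have : δ * (γ * γ') * δ⁻¹ = δ * γ * δ⁻¹ * (δ * γ' * δ⁻¹) := by group
      rw [this]
      exact Subgroup.mul_mem _ h h'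
    have h4 : r' ⟨δ * (γ * γ') * δ⁻¹, h3⟩ = r' ⟨δ * γ * δ⁻¹, h⟩ * r' ⟨δ * γ' * δ⁻¹, h'⟩ := by
      rw [← map_mul]
      congr 1
      apply Subtype.ext
      change δ * (γ * γ') * δ⁻¹ = δ * γ * δ⁻¹ * (δ * γ' * δ⁻¹)
      group
    rw [h2 γ h, h2 γ' h', h2 _ h3, h4]
    group
  -- class function
  have hTc : ∀ δ γ : Γ, T (δ * γ * δ⁻¹) = T γ := by
    intro δ γ
    have e : d γ * γ * (d γ)⁻¹ = (d γ * δ⁻¹) * (δ * γ * δ⁻¹) * (d γ * δ⁻¹)⁻¹ := by group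
    have h1 : (d γ * δ⁻¹) * (δ * γ * δ⁻¹) * (d γ * δ⁻¹)⁻¹ ∈ (Hd γ).comap π := by rw [← e]; exact hd' γ
    have e2 : (⟨(d γ * δ⁻¹) * (δ * γ * δ⁻¹) * (d γ * δ⁻¹)⁻¹, h1⟩ : (Hd γ).comap π) =
      ⟨d γ * γ * (d γ)⁻¹, hd' γ⟩ := Subtype.ext e.symm
    rw [hT (hr (Hd γ) (hHd γ)) (d γ * δ⁻¹) (δ * γ * δ⁻¹) h1, e2]
  have hnorm : ∀ (δ : Γ) (x : π.ker), s δ * R x * (s δ)⁻¹ = s (δ * x * δ⁻¹) := by
    intro δ x
    have h1 := hd' δ
    have h2 := hkm (Hd δ) (d δ) x x.2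
    have h3 : d δ * δ⁻¹ * (d δ)⁻¹ ∈ (Hd δ).comap π := by
      have : d δ * δ⁻¹ * (d δ)⁻¹ = (d δ * δ * (d δ)⁻¹)⁻¹ := by group
      rw [this]
      exact Subgroup.inv_mem _ h1
    have h4 : d δ * (δ * x) * (d δ)⁻¹ ∈ (Hd δ).comap π := by
      have : d δ * (δ * x) * (d δ)⁻¹ = d δ * δ * (d δ)⁻¹ * (d δ * x * (d δ)⁻¹) := by group
      rw [this]
      exact Subgroup.mul_mem _ h1 h2
    have e1 := hmul1 (hr (Hd δ) (hHd δ)) (d δ) δ x h1 h2
    have e2 := hmul1 (hr (Hd δ) (hHd δ)) (d δ) (δ * x) δ⁻¹ h4 h3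
    have e3 := hmul1 (hr (Hd δ) (hHd δ)) (d δ) δ δ⁻¹ h1 h3
    have e4 : s (δ * δ⁻¹) = 1 := by
      rw [mul_inv_cancel]
      have h5 := hsk 1
      rw [map_one] at h5
      exact h5
    rw [e4] at e3
    rw [← e2, ← e1, hsk, eq_inv_of_mul_eq_one_right e3]
  have hconj : ∀ δ γ : Γ, s δ * s γ * (s δ)⁻¹ = s (δ * γ * δ⁻¹) := by
    intro δ γ
    symm
    apply huniq
    intro x
    have hx' : δ⁻¹ * x * δ ∈ π.ker := by
      have := Subgroup.Normal.conj_mem (H := π.ker) inferInstance x x.2 δ⁻¹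
      rwa [inv_inv] at this
    have h1 := hnorm δ ⟨δ⁻¹ * x * δ, hx'⟩
    have e : δ * (δ⁻¹ * x * δ) * δ⁻¹ = x := by group
    simp only [e] at h1
    rw [hsk] at h1
    have h2 : s δ * s γ * (s δ)⁻¹ * R x = s δ * (s γ * R ⟨δ⁻¹ * x * δ, hx'⟩) * (s δ)⁻¹ := by
      rw [← h1]; group
    rw [h2, Units.val_mul, Units.val_mul, Matrix.trace_mul_comm, ← mul_assoc, ← Units.val_mul, inv_mul_cancel,
      Units.val_one, one_mul, hs γ ⟨δ⁻¹ * x * δ, hx'⟩]
    have h3 : δ * γ * δ⁻¹ * x = δ * (γ * (δ⁻¹ * x * δ)) * δ⁻¹ := by group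
    rw [h3, hTc]
  have hmain := lift_mult π hπ hc s (fun H hH γ h1 δ h2 => hmul1 (hr H hH) 1 γ δ (by
      rw [one_mul, inv_one, mul_one]; exact h1) (by rw [one_mul, inv_one, mul_one]; exact h2)) hconj hS
  let σ : Γ →* GL (Fin n) Ω :=
    { toFun := s
      map_one' := by
        have h5 := hsk 1
        rw [map_one] at h5
        exact h5
      map_mul' := fun a b => (hmain a b).symm }
  refine ⟨σ, ?_, ?_, ?_, ?_⟩
  · -- continuity
    have h1 : Continuous (σ.comp π.ker.subtype) := by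
      have h2 : σ.comp π.ker.subtype = R := by
        ext1 x
        exact hsk x
      rw [h2, hR]
      unfold resK
      exact hr₀.1.comp (Continuous.subtype_mk continuous_subtype_val _)
    apply continuous_of_continuousAt_one
    have h3 : ContinuousAt (σ ∘ (Subtype.val : π.ker → Γ)) 1 := h1.continuousAt
    exact (hopen.isOpenEmbedding_subtypeVal.continuousAt_iff (g := σ) (x := (1 : π.ker))).mp h3
  · intro Q
    change ((s (fr Q) : GL (Fin n) Ω) : Matrix (Fin n) (Fin n) Ω).charpoly = _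
    obtain ⟨W, -, h2⟩ := hform (hr (Hd (fr Q)) (hHd (fr Q))) (d (fr Q))
    rw [h2 (fr Q) (hd' (fr Q)), charpoly_conj,
      charpoly_fr hfr hcc (hr (Hd (fr Q)) (hHd (fr Q))) (d (fr Q)) Q (hd' (fr Q))]
  · have h2 : σ.comp π.ker.subtype = R := by
      ext1 x
      exact hsk x
    rw [h2]
    exact hsp
  · intro H r' hr'
    obtain ⟨W, -, h2⟩ := hform hr' 1
    refine ⟨W, fun γ => ?_⟩
    change s γ = _
    have h3 : (1 : Γ) * γ * 1⁻¹ ∈ H.comap π := by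
      rw [one_mul, inv_one, mul_one]; exact γ.2
    rw [h2 γ h3]
    congr 3
    apply Subtype.ext
    change (1 : Γ) * γ * 1⁻¹ = γ
    group

end patch

end Pool.Agent.L5helper16.GP
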