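import Pool.Agent.L5helper16.GP.C

/-!
# The criterion is necessary
-/

set_option autoImplicit false

namespace Pool.Agent.L5helper16.GP

open Matrix Topology
open scoped IsMulCommutative

section amal

variable {V : Type*} [Group V] (S : Set (Subgroup V))

lemma conj_br (a : Amal S) (v : V) : a * br S v * a⁻¹ = br S (toV S a * v * (toV S a)⁻¹) := by
  revert v
  refine ind (p := fun a => ∀ v, a * br S v * a⁻¹ = br S (toV S a * v * (toV S a)⁻¹)) ?_ ?_ ?_ ?_ a
  · intro w v; rw [toV_br, br_conj]
  · intro v; rw [map_one]; simp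
  · intro x y hx hy v
    have e : x * y * br S v * (x * y)⁻¹ = x * (y * br S v * y⁻¹) * x⁻¹ := by group
    rw [e, hy, hx, map_mul]
    congr 1
    group
  · intro x hx v
    have h := hx ((toV S x)⁻¹ * v * toV S x)
    have e1 : toV S x * ((toV S x)⁻¹ * v * toV S x) * (toV S x)⁻¹ = v := by group
    rw [e1] at h
    rw [← h, map_inv, inv_inv]
    group

lemma ker_le_center : (toV S).ker ≤ Subgroup.center (Amal S) := by
  intro z hz
  rw [Subgroup.mem_center_iff]
  refine ind (p := fun g => g * z = z * g) ?_ ?_ ?_ ?_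
  · intro v
    have h := conj_br S z v
    rw [MonoidHom.mem_ker.mp hz] at h
    simp only [one_mul, inv_one, mul_one] at h
    rw [mul_inv_eq_iff_eq_mul] at h
    exact h.symm
  · simp
  · intro x y hx hy
    rw [mul_assoc, hy, ← mul_assoc, hx, mul_assoc]
  · intro x hx
    rw [inv_mul_eq_iff_eq_mul, ← mul_assoc, hx, mul_assoc, mul_inv_cancel, mul_one]

variable {S}

lemma br_pow (hc : Covers S) (v : V) (k : ℕ) : br S v ^ k = br S (v ^ k) := by
  obtain ⟨g, H, hH, hg⟩ := hc v
  have key : ∀ k : ℕ, br S (g * v * g⁻¹) ^ k = br S ((g * v * g⁻¹) ^ k) := by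
    intro k
    induction k with
    | zero =>
      rw [pow_zero, pow_zero]
      have h := br_mul hH H.one_mem H.one_mem
      rw [mul_one] at h
      exact (mul_eq_left.mp h).symm
    | succ k ih => rw [pow_succ, pow_succ, ih, br_mul hH (H.pow_mem hg k) hg]
  have h := key k
  rw [← br_conj, conj_pow, conj_pow, ← br_conj] at h
  exact mul_left_cancel (mul_right_cancel h)

lemma br_one (hc : Covers S) : br S 1 = 1 := by
  have := br_pow hc 1 0
  rwa [pow_zero, pow_zero, eq_comm] at this

lemma br_inv (hc : Covers S) (v : V) : br S v⁻¹ = (br S v)⁻¹ := by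
  obtain ⟨g, H, hH, hg⟩ := hc v
  have h := br_mul hH hg (H.inv_mem hg)
  rw [mul_inv_cancel, br_one hc, ← br_conj] at h
  have h1 : (g * v * g⁻¹)⁻¹ = g * v⁻¹ * g⁻¹ := by group
  rw [h1, ← br_conj] at h
  have h2 : br S g * (br S v * br S v⁻¹) * (br S g)⁻¹ = 1 := by rw [← h]; group
  have h3 : br S v * br S v⁻¹ = 1 := by
    have : br S v * br S v⁻¹ = (br S g)⁻¹ * (br S g * (br S v * br S v⁻¹) * (br S g)⁻¹) * br S g := by group
    rw [this, h2]; group
  exact eq_inv_of_mul_eq_one_right h3

/-- the amalgam of a covering family of subgroups of a finite group is finite -/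
lemma finite_center [Finite V] (hc : Covers S) : Finite (Subgroup.center (Amal S)) := by
  classical
  have hfg : Group.FG (Amal S) := by
    rw [Group.fg_iff]
    refine ⟨Set.range (br S), ?_, Set.finite_range _⟩
    rw [eq_top_iff]
    intro x _
    refine ind (p := fun x => x ∈ Subgroup.closure (Set.range (br S))) ?_ ?_ ?_ ?_ x
    · intro v; exact Subgroup.subset_closure ⟨v, rfl⟩
    · exact Subgroup.one_mem _
    · intro x y; exact Subgroup.mul_mem _
    · intro x; exact Subgroup.inv_mem _
  have hfk : (toV S).ker.FiniteIndex := by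
    refine ⟨?_⟩
    rw [Subgroup.index_ker]
    exact Nat.card_pos.ne'
  have hfi : (Subgroup.center (Amal S)).FiniteIndex := Subgroup.finiteIndex_of_le (ker_le_center S)
  have hfgc : Group.FG (Subgroup.center (Amal S)) := (Subgroup.center (Amal S)).fg_of_index_ne_zero
  apply CommGroup.finite_of_fg_isMulTorsion
  have hm0 : 0 < Nat.card V := Nat.card_pos
  have hk0 : 0 < (Subgroup.center (Amal S)).index := Nat.pos_of_ne_zero hfi.index_ne_zero
  have hall : ∀ a : Amal S, MonoidHom.transferCenterPow (Amal S) a ^ Nat.card V = 1 := by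
    refine ind ?_ ?_ ?_ ?_
    · intro v
      rw [← map_pow, br_pow hc, pow_card_eq_one', br_one hc, map_one]
    · rw [map_one, one_pow]
    · intro x y hx hy
      rw [map_mul, mul_pow, hx, hy, mul_one]
    · intro x hx
      rw [map_inv, inv_pow, hx, inv_one]
  intro z
  rw [isOfFinOrder_iff_pow_eq_one]
  refine ⟨(Subgroup.center (Amal S)).index * Nat.card V, Nat.mul_pos hk0 hm0, ?_⟩
  have h := hall (z : Amal S)
  apply Subtype.ext
  have h1 := congrArg (fun t : Subgroup.center (Amal S) => (t : Amal S)) h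
  simp only [Subgroup.coe_pow, MonoidHom.transferCenterPow_apply, Subgroup.coe_one] at h1
  rw [Subgroup.coe_pow, pow_mul, h1]
  rfl

/-- if the family does not generate all relations, then a character of the centre detects one -/
theorem exists_char [Finite V] (hc : Covers S) (hS : ¬ Generates S) (Ω : Type*) [Field Ω] [IsAlgClosed Ω] [CharZero Ω] :
    ∃ χ : Subgroup.center (Amal S) →* Ωˣ, ∃ v w : V, ∃ h : br S v * br S w * (br S (v * w))⁻¹ ∈ Subgroup.center (Amal S),
      χ ⟨br S v * br S w * (br S (v * w))⁻¹, h⟩ ≠ 1 := by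
  have hex : ∃ v w : V, br S v * br S w ≠ br S (v * w) := by
    by_contra hcon
    push Not at hcon
    exact hS (generates_of hcon)
  obtain ⟨v, w, hvw⟩ := hex
  have hk : br S v * br S w * (br S (v * w))⁻¹ ∈ (toV S).ker := by
    rw [MonoidHom.mem_ker, map_mul, map_mul, map_inv, toV_br, toV_br, toV_br, mul_inv_cancel]
  have hfin := finite_center hc
  have hne : (⟨br S v * br S w * (br S (v * w))⁻¹, ker_le_center S hk⟩ : Subgroup.center (Amal S)) ≠ 1 := by
    intro h
    have h1 := congrArg (fun t : Subgroup.center (Amal S) => (t : Amal S)) h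
    exact hvw (mul_inv_eq_one.mp h1)
  have hexp : NeZero ((Monoid.exponent (Subgroup.center (Amal S)) : ℕ) : Ω) := by
    refine ⟨?_⟩
    exact_mod_cast Monoid.exponent_ne_zero_of_finite
  obtain ⟨χ, hχ⟩ := CommGroup.exists_apply_ne_one_of_hasEnoughRootsOfUnity (Subgroup.center (Amal S)) Ω hne
  exact ⟨χ, v, w, _, hχ⟩

end amal

end Pool.Agent.L5helper16.GP
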