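import Pool.Agent.L5helper16.GP.D

/-!
# The criterion is necessary: families which cannot be patched
-/

set_option autoImplicit false

namespace Pool.Agent.L5helper16.GP

open Matrix Topology
open scoped IsMulCommutative

section kappa

variable {V : Type*} [Group V] (S : Set (Subgroup V))

/-- `κ(a) = a [v]⁻¹`, `v` the image of `a` -/
def kap (a : Amal S) : Subgroup.center (Amal S) :=
  ⟨a * (br S (toV S a))⁻¹, ker_le_center S (by
    rw [MonoidHom.mem_ker, map_mul, map_inv, toV_br, mul_inv_cancel])⟩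

lemma kap_coe (a : Amal S) : (kap S a : Amal S) * br S (toV S a) = a := by
  unfold kap
  group

lemma kap_comm (a b : Amal S) : b * (kap S a : Amal S) = (kap S a : Amal S) * b :=
  Subgroup.mem_center_iff.mp (kap S a).2 b

lemma kap_conj (g a : Amal S) : kap S (g * a * g⁻¹) = kap S a := by
  apply Subtype.ext
  change g * a * g⁻¹ * (br S (toV S (g * a * g⁻¹)))⁻¹ = _
  rw [map_mul, map_mul, map_inv, ← conj_br]
  have e : g * a * g⁻¹ * (g * br S (toV S a) * g⁻¹)⁻¹ = g * (a * (br S (toV S a))⁻¹) * g⁻¹ := by group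
  rw [e]
  change g * (kap S a : Amal S) * g⁻¹ = _
  rw [kap_comm, mul_assoc, mul_inv_cancel, mul_one]

lemma kap_mul {H : Subgroup V} (hH : H ∈ S) {a b : Amal S} (ha : toV S a ∈ H) (hb : toV S b ∈ H) :
    kap S (a * b) = kap S a * kap S b := by
  apply Subtype.ext
  change a * b * (br S (toV S (a * b)))⁻¹ = (kap S a : Amal S) * (kap S b : Amal S)
  rw [map_mul, ← br_mul hH ha hb]
  have e : a * b * (br S (toV S a) * br S (toV S b))⁻¹ = a * (b * (br S (toV S b))⁻¹) * (br S (toV S a))⁻¹ := by group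
  rw [e]
  change a * (kap S b : Amal S) * (br S (toV S a))⁻¹ = _
  rw [kap_comm S b a, mul_assoc]
  change (kap S b : Amal S) * (kap S a : Amal S) = _
  exact kap_comm S a _

variable {S}

lemma kap_pow (hc : Covers S) (a : Amal S) (k : ℕ) : kap S (a ^ k) = kap S a ^ k := by
  apply Subtype.ext
  change a ^ k * (br S (toV S (a ^ k)))⁻¹ = (kap S a : Amal S) ^ k
  rw [map_pow, ← br_pow hc]
  have h : Commute (kap S a : Amal S) (br S (toV S a)) := (kap_comm S a _).symm
  have e : a ^ k = (kap S a : Amal S) ^ k * br S (toV S a) ^ k := by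
    rw [← h.mul_pow, kap_coe]
  rw [e, mul_inv_cancel_right]

lemma kap_br (v : V) : kap S (br S v) = 1 := by
  apply Subtype.ext
  change br S v * (br S (toV S (br S v)))⁻¹ = 1
  rw [toV_br, mul_inv_cancel]

end kappa

/-- a function of a homomorphism with an open kernel is continuous -/
lemma cont_of {Γ A Y : Type*} [Group Γ] [TopologicalSpace Γ] [IsTopologicalGroup Γ] [Group A] [TopologicalSpace Y]
    (P : Γ →* A) (h : IsOpen (P.ker : Set Γ)) (F : A → Y) : Continuous fun γ => F (P γ) := by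
  have key : ∀ T : Set A, IsOpen (P ⁻¹' T) := by
    intro T
    have e : (P ⁻¹' T : Set Γ) = ⋃ x ∈ (P ⁻¹' T : Set Γ), {y : Γ | x⁻¹ * y ∈ P.ker} := by
      ext y
      simp only [Set.mem_preimage, Set.mem_iUnion, Set.mem_ofPred_eq, MonoidHom.mem_ker, map_mul, map_inv, exists_prop]
      constructor
      · intro hy
        exact ⟨y, hy, inv_mul_cancel _⟩
      · rintro ⟨x, hx, hxy⟩
        rwa [← inv_mul_eq_one.mp hxy]
    rw [e]
    refine isOpen_biUnion fun x _ => ?_
    exact h.preimage (continuous_const.mul continuous_id)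
  refine ⟨fun U _ => ?_⟩
  exact key (F ⁻¹' U)

/-- scalars as matrices of size one -/
noncomputable def sc (Ω : Type*) [Field Ω] : Ωˣ →* GL (Fin 1) Ω :=
  Units.map ((Matrix.scalar (Fin 1) : Ω →+* Matrix (Fin 1) (Fin 1) Ω) : Ω →* Matrix (Fin 1) (Fin 1) Ω)

lemma sc_trace {Ω : Type*} [Field Ω] (a : Ωˣ) : ((sc Ω a : GL (Fin 1) Ω) : Matrix (Fin 1) (Fin 1) Ω).trace = a := by
  change ((Matrix.scalar (Fin 1) : Ω →+* Matrix (Fin 1) (Fin 1) Ω) (a : Ω)).trace = a
  simp [Matrix.trace]

lemma trace_mul_one {Ω : Type*} [Field Ω] (A B : Matrix (Fin 1) (Fin 1) Ω) : (A * B).trace = A.trace * B.trace := by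
  simp [Matrix.trace, Matrix.mul_apply]

variable {V : Type*} [Group V]

lemma finite_amal [Finite V] {S : Set (Subgroup V)} (hc : Covers S) : Finite (Amal S) := by
  have h1 := finite_center hc
  have hfk : (toV S).ker.FiniteIndex := by
    refine ⟨?_⟩
    rw [Subgroup.index_ker]
    exact Nat.card_pos.ne'
  have h2 : Finite (toV S).ker :=
    Finite.of_injective (fun z : (toV S).ker => (⟨z, ker_le_center S z.2⟩ : Subgroup.center (Amal S)))
      (fun a b hab => Subtype.ext (congrArg (fun t : Subgroup.center (Amal S) => (t : Amal S)) hab))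
  apply Nat.finite_of_card_ne_zero
  rw [← (toV S).ker.card_mul_index]
  exact Nat.mul_ne_zero Nat.card_pos.ne' hfk.index_ne_zero

/-- **Necessity.** -/
theorem not_patch [Finite V] {S : Set (Subgroup V)} (hc : Covers S) (hS : ¬ Generates S)
    {Γ X : Type*} [Group Γ] [TopologicalSpace Γ] [IsTopologicalGroup Γ] [MulAction Γ X] {fr : X → Γ}
    (hfr : ∀ (γ : Γ) (Q : X), fr (γ • Q) = γ * fr Q * γ⁻¹) (hd : Dense (Set.range fr))
    (P : Γ →* Amal S) (hP : Function.Surjective P) (hopen : IsOpen (P.ker : Set Γ))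
    (Ω : Type*) [Field Ω] [TopologicalSpace Ω] [IsTopologicalRing Ω] [T2Space Ω] [IsAlgClosed Ω] [CharZero Ω] :
    ∃ c : X → GL (Fin 1) Ω, (∀ (γ : Γ) (Q : X), c (γ • Q) = c Q) ∧
      (∀ H ∈ S, ∃ r : H.comap ((toV S).comp P) →* GL (Fin 1) Ω, Attached ((toV S).comp P) fr c H r) ∧
      ¬ ∃ r : (⊤ : Subgroup V).comap ((toV S).comp P) →* GL (Fin 1) Ω, Attached ((toV S).comp P) fr c ⊤ r := by
  obtain ⟨χ, v, w, h, hχ⟩ := exists_char hc hS Ω
  refine ⟨fun Q => sc Ω (χ (kap S (P (fr Q)))), ?_, ?_, ?_⟩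
  · intro γ Q
    simp only
    rw [hfr, map_mul, map_mul, map_inv, kap_conj]
  · intro H hH
    have hmul : ∀ γ δ : H.comap ((toV S).comp P), kap S (P (γ * δ)) = kap S (P γ) * kap S (P δ) := by
      intro γ δ
      rw [map_mul]
      exact kap_mul S hH γ.2 δ.2
    let r : H.comap ((toV S).comp P) →* GL (Fin 1) Ω :=
      { toFun := fun γ => sc Ω (χ (kap S (P γ)))
        map_one' := by
          have h1 := hmul 1 1
          rw [Subgroup.coe_one, mul_one] at h1
          rw [Subgroup.coe_one, left_eq_mul.mp h1, map_one, map_one]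
        map_mul' := fun γ δ => by
          rw [Subgroup.coe_mul, hmul, map_mul, map_mul] }
    refine ⟨r, ?_, ?_⟩
    · exact (cont_of P hopen (fun a => sc Ω (χ (kap S a)))).comp continuous_subtype_val
    · intro Q k hk _ _
      change ((sc Ω (χ (kap S (P (fr Q ^ k)))) : GL (Fin 1) Ω) : Matrix (Fin 1) (Fin 1) Ω).charpoly = _
      rw [map_pow, kap_pow hc, map_pow, map_pow, Units.val_pow_eq_pow_val]
  · rintro ⟨r, hr⟩
    have htop : ∀ γ : Γ, γ ∈ (⊤ : Subgroup V).comap ((toV S).comp P) := fun γ => trivial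
    let F : Γ → Ω := fun γ => ((r ⟨γ, htop γ⟩ : GL (Fin 1) Ω) : Matrix (Fin 1) (Fin 1) Ω).trace
    let F' : Γ → Ω := fun γ => ((sc Ω (χ (kap S (P γ))) : GL (Fin 1) Ω) : Matrix (Fin 1) (Fin 1) Ω).trace
    have hF : Continuous F := by
      apply Continuous.matrix_trace
      apply Units.continuous_val.comp
      apply hr.1.comp
      exact Continuous.subtype_mk continuous_id _
    have hF' : Continuous F' :=
      cont_of P hopen (fun a => ((sc Ω (χ (kap S a)) : GL (Fin 1) Ω) : Matrix (Fin 1) (Fin 1) Ω).trace)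
    have he : F = F' := by
      apply Continuous.ext_on hd hF hF'
      rintro _ ⟨Q, rfl⟩
      have h1 : fr Q ^ 1 ∈ (⊤ : Subgroup V).comap ((toV S).comp P) := trivial
      have h2 := hr.2 Q 1 h1 one_pos (fun j h3 h4 => by omega)
      rw [pow_one (((sc Ω (χ (kap S (P (fr Q)))) : GL (Fin 1) Ω) : Matrix (Fin 1) (Fin 1) Ω))] at h2
      have h3 := trace_of_charpoly h2
      have e : (⟨fr Q ^ 1, h1⟩ : (⊤ : Subgroup V).comap ((toV S).comp P)) = ⟨fr Q, htop (fr Q)⟩ :=
        Subtype.ext (pow_one _)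
      rw [e] at h3
      exact h3
    have hmul : ∀ γ δ : Γ, χ (kap S (P (γ * δ))) = χ (kap S (P γ)) * χ (kap S (P δ)) := by
      intro γ δ
      have h1 : F (γ * δ) = F γ * F δ := by
        have h2 : (⟨γ * δ, htop _⟩ : (⊤ : Subgroup V).comap ((toV S).comp P)) = ⟨γ, htop γ⟩ * ⟨δ, htop δ⟩ := rfl
        change ((r ⟨γ * δ, htop _⟩ : GL (Fin 1) Ω) : Matrix (Fin 1) (Fin 1) Ω).trace = _
        rw [h2, map_mul, Units.val_mul, trace_mul_one]
      rw [he] at h1
      simp only [F', sc_trace] at h1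
      exact Units.ext h1
    obtain ⟨γ, hγ⟩ := hP (br S v)
    obtain ⟨δ, hδ⟩ := hP (br S w)
    have h1 := hmul γ δ
    rw [map_mul, hγ, hδ, kap_br, kap_br, map_one, mul_one] at h1
    apply hχ
    rw [← h1]
    congr 1
    apply Subtype.ext
    change br S v * br S w * (br S (v * w))⁻¹ = br S v * br S w * (br S (toV S (br S v * br S w)))⁻¹
    rw [map_mul, toV_br, toV_br]

end Pool.Agent.L5helper16.GP
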