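import Pool.Agent.L5helper16.GP.E

/-!
# Patching with values in the stabilizer of a line
-/

set_option autoImplicit false

namespace Pool.Agent.L5helper16.GP

open Matrix Topology

section

variable {Γ V X Ω : Type*} [Group Γ] [TopologicalSpace Γ] [IsTopologicalGroup Γ] [Group V] [MulAction Γ X]
  [Field Ω] [TopologicalSpace Ω] [IsTopologicalRing Ω] [T2Space Ω] {n : ℕ}

/-- `r` is a continuous homomorphism of the preimage of `H` to the group `𝒢` such that the Frobenius `fr Q ^ k` of the place of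
the field of `H` below `Q` (`k` minimal, the residue degree) is conjugate in `𝒢` to `c Q ^ k` -/
def AttG (π : Γ →* V) (fr : X → Γ) (𝒢 : Subgroup (GL (Fin n) Ω)) (c : X → 𝒢) (H : Subgroup V)
    (r : H.comap π →* 𝒢) : Prop :=
  Continuous r ∧ ∀ (Q : X) (k : ℕ) (hk : fr Q ^ k ∈ H.comap π), 0 < k → (∀ j, 0 < j → j < k → fr Q ^ j ∉ H.comap π) →
    IsConj (r ⟨fr Q ^ k, hk⟩) (c Q ^ k)

variable {π : Γ →* V} (hopen : IsOpen (π.ker : Set Γ)) {fr : X → Γ}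
  (hfr : ∀ (γ : Γ) (Q : X), fr (γ • Q) = γ * fr Q * γ⁻¹) (hd : Dense (Set.range fr))
  {𝒢 : Subgroup (GL (Fin n) Ω)} {c : X → 𝒢} (hcc : ∀ (γ : Γ) (Q : X), IsConj (c (γ • Q)) (c Q))

omit [IsTopologicalGroup Γ] [IsTopologicalRing Ω] [T2Space Ω] [MulAction Γ X] in
lemma AttG.att {H : Subgroup V} {r : H.comap π →* 𝒢} (h : AttG π fr 𝒢 c H r) :
    Attached π fr (fun Q => (c Q : GL (Fin n) Ω)) H (𝒢.subtype.comp r) := by
  refine ⟨continuous_subtype_val.comp h.1, fun Q k hk hk0 hmin => ?_⟩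
  obtain ⟨g, hg⟩ := isConj_iff.mp (h.2 Q k hk hk0 hmin).symm
  change ((r ⟨fr Q ^ k, hk⟩ : GL (Fin n) Ω) : Matrix (Fin n) (Fin n) Ω).charpoly = _
  rw [← hg]
  have h1 := charpoly_conj (g : GL (Fin n) Ω)⁻¹ ((c Q : GL (Fin n) Ω) ^ k)
  rw [inv_inv, Units.val_pow_eq_pow_val] at h1
  rw [← h1]
  rfl

include hfr hcc in
omit [IsTopologicalGroup Γ] [IsTopologicalRing Ω] [T2Space Ω] in
lemma conj_fr {H : Subgroup V} {r : H.comap π →* 𝒢} (hr : AttG π fr 𝒢 c H r) (δ : Γ) (Q : X)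
    (h : δ * fr Q * δ⁻¹ ∈ H.comap π) : IsConj (r ⟨δ * fr Q * δ⁻¹, h⟩) (c Q) := by
  have h1 : fr (δ • Q) ^ 1 ∈ H.comap π := by rw [pow_one, hfr]; exact h
  have h2 := hr.2 (δ • Q) 1 h1 one_pos (fun j h3 h4 => by omega)
  have e : (⟨fr (δ • Q) ^ 1, h1⟩ : H.comap π) = ⟨δ * fr Q * δ⁻¹, h⟩ := by
    apply Subtype.ext
    change fr (δ • Q) ^ 1 = δ * fr Q * δ⁻¹
    rw [pow_one, hfr]
  rw [e, pow_one] at h2
  exact h2.trans (hcc δ Q)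

include hopen hfr hd hcc in
omit [IsTopologicalRing Ω] in
/-- characters of `𝒢` agree -/
lemma mu_eq (μ : 𝒢 →* Ωˣ) (hμ : Continuous μ) {H H' : Subgroup V} {r : H.comap π →* 𝒢} {r' : H'.comap π →* 𝒢}
    (hr : AttG π fr 𝒢 c H r) (hr' : AttG π fr 𝒢 c H' r') (δ ε γ : Γ) (h : δ * γ * δ⁻¹ ∈ H.comap π)
    (h' : ε * γ * ε⁻¹ ∈ H'.comap π) : μ (r ⟨δ * γ * δ⁻¹, h⟩) = μ (r' ⟨ε * γ * ε⁻¹, h'⟩) := by
  let U : Set Γ := {x | δ * x * δ⁻¹ ∈ H.comap π ∧ ε * x * ε⁻¹ ∈ H'.comap π}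
  have hU : IsOpen U := by
    have h1 : IsOpen {x : Γ | δ * x * δ⁻¹ ∈ H.comap π} :=
      (comap_open hopen H).preimage (by fun_prop)
    have h2 : IsOpen {x : Γ | ε * x * ε⁻¹ ∈ H'.comap π} :=
      (comap_open hopen H').preimage (by fun_prop)
    exact h1.inter h2
  let F : U → Ω := fun x => (μ (r ⟨δ * x * δ⁻¹, x.2.1⟩) : Ω)
  let F' : U → Ω := fun x => (μ (r' ⟨ε * x * ε⁻¹, x.2.2⟩) : Ω)
  have hF : Continuous F := by
    apply Units.continuous_val.comp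
    apply hμ.comp
    apply hr.1.comp
    apply Continuous.subtype_mk
    fun_prop
  have hF' : Continuous F' := by
    apply Units.continuous_val.comp
    apply hμ.comp
    apply hr'.1.comp
    apply Continuous.subtype_mk
    fun_prop
  have hdU : Dense ((fun x : U => (x : Γ)) ⁻¹' Set.range fr) :=
    hd.preimage hU.isOpenEmbedding_subtypeVal.isOpenMap
  have hcom : ∀ a b : 𝒢, IsConj a b → μ a = μ b := by
    intro a b hab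
    exact isConj_iff_eq.mp (μ.map_isConj hab)
  have he : F = F' := by
    apply Continuous.ext_on hdU hF hF'
    rintro ⟨x, hx⟩ ⟨Q, hQ⟩
    simp only at hQ
    subst hQ
    change (μ _ : Ω) = (μ _ : Ω)
    rw [hcom _ _ (conj_fr hfr hcc hr δ Q hx.1), hcom _ _ (conj_fr hfr hcc hr' ε Q hx.2)]
  exact Units.ext (congrFun he ⟨γ, h, h'⟩)

include hopen hfr hd hcc in
/-- **Patching with values in the stabilizer `𝒢` of the line of `u₀`.**  `μ` is the character of `𝒢` on the line. -/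
theorem patchG (hπ : Function.Surjective π) {S : Set (Subgroup V)} (hc : Covers S) (hS : Generates S)
    {U : Type*} [AddCommGroup U] [Module Ω U] (ρ : GL (Fin n) Ω →* Module.End Ω U) (u₀ : U)
    (h𝒢 : ∀ g : GL (Fin n) Ω, g ∈ 𝒢 ↔ ∃ a : Ω, ρ g u₀ = a • u₀) (μ : 𝒢 →* Ωˣ) (hμ : Continuous μ)
    (hμu : ∀ g : 𝒢, ρ g u₀ = (μ g : Ω) • u₀)
    (hr : ∀ H ∈ S, ∃ r : H.comap π →* 𝒢, AttG π fr 𝒢 c H r)
    (hirr : ∃ H ∈ S, ∃ r : H.comap π →* 𝒢, AttG π fr 𝒢 c H r ∧ Spans (resK π H (𝒢.subtype.comp r)) ∧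
      ∀ v : U, (∀ x : H.comap π, (x : Γ) ∈ π.ker → ρ (r x) v = (μ (r x) : Ω) • v) → ∃ a : Ω, v = a • u₀) :
    ∃ s : Γ →* 𝒢, Continuous s ∧ (∀ Q : X, IsConj (s (fr Q)) (c Q)) ∧
      ∀ (H : Subgroup V) (r : H.comap π →* 𝒢), AttG π fr 𝒢 c H r →
        ∃ W : 𝒢, ∀ γ : H.comap π, s γ = W⁻¹ * r γ * W := by
  obtain ⟨H₀, hH₀, r₀, hr₀, hsp, huniq⟩ := hirr
  have hcc' : ∀ (γ : Γ) (Q : X), ((c (γ • Q) : GL (Fin n) Ω) : Matrix (Fin n) (Fin n) Ω).charpoly =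
      ((c Q : GL (Fin n) Ω) : Matrix (Fin n) (Fin n) Ω).charpoly := by
    intro γ Q
    obtain ⟨g, hg⟩ := isConj_iff.mp (hcc γ Q).symm
    rw [← hg]
    have h1 := charpoly_conj (g : GL (Fin n) Ω)⁻¹ (c Q : GL (Fin n) Ω)
    rw [inv_inv] at h1
    rw [← h1]
    rfl
  obtain ⟨s₁, hs1, -, -, hs4⟩ := patch (c := fun Q => (c Q : GL (Fin n) Ω)) hopen hfr hd hcc' hπ hc hS
    (fun H hH => by
      obtain ⟨r, hr⟩ := hr H hH
      exact ⟨_, hr.att⟩) ⟨H₀, hH₀, _, hr₀.att, hsp⟩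
  obtain ⟨W₀, hW₀⟩ := hs4 H₀ _ hr₀.att
  -- normalize
  let s₂ : Γ →* GL (Fin n) Ω := (MulAut.conj W₀).toMonoidHom.comp s₁
  have hs2 : ∀ γ, s₂ γ = W₀ * s₁ γ * W₀⁻¹ := fun γ => rfl
  have hs2r : ∀ γ : H₀.comap π, s₂ γ = r₀ γ := by
    intro γ
    rw [hs2, hW₀ γ]
    change W₀ * (W₀⁻¹ * (r₀ γ : GL (Fin n) Ω) * W₀) * W₀⁻¹ = _
    group
  have hs2W : ∀ (H : Subgroup V) (r : H.comap π →* 𝒢), AttG π fr 𝒢 c H r →
      ∃ W : GL (Fin n) Ω, ∀ γ : H.comap π, s₂ γ = W⁻¹ * (r γ : GL (Fin n) Ω) * W := by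
    intro H r hr
    obtain ⟨W, hW⟩ := hs4 H _ hr.att
    refine ⟨W * W₀⁻¹, fun γ => ?_⟩
    rw [hs2, hW γ]
    change W₀ * (W⁻¹ * (r γ : GL (Fin n) Ω) * W) * W₀⁻¹ = _
    group
  have hs2c : Continuous s₂ := by
    change Continuous fun γ => W₀ * s₁ γ * W₀⁻¹
    exact (continuous_const.mul hs1).mul continuous_const
  have hk0 : ∀ (H : Subgroup V) (x : Γ), x ∈ π.ker → x ∈ H.comap π := by
    intro H x hx
    rw [Subgroup.mem_comap, MonoidHom.mem_ker.mp hx]; exact H.one_mem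
  -- uniqueness of the line
  have key : ∀ v : U, (∀ x : π.ker, ρ (s₂ x) v = (μ (r₀ ⟨x, hk0 H₀ x x.2⟩) : Ω) • v) → ∃ a : Ω, v = a • u₀ := by
    intro v hv
    apply huniq
    intro x hx
    have h1 : ρ (s₂ (x : Γ)) v = (μ (r₀ x) : Ω) • v := hv ⟨x, hx⟩
    rwa [hs2r x] at h1
  have hρi : ∀ (g : GL (Fin n) Ω) (v : U), ρ g⁻¹ (ρ g v) = v := by
    intro g v
    rw [← Module.End.mul_apply, ← map_mul, inv_mul_cancel, map_one, Module.End.one_apply]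
  -- the intertwiners are in `𝒢`
  have hWG : ∀ (H : Subgroup V) (r : H.comap π →* 𝒢), AttG π fr 𝒢 c H r → ∀ W : GL (Fin n) Ω,
      (∀ γ : H.comap π, s₂ γ = W⁻¹ * (r γ : GL (Fin n) Ω) * W) → W ∈ 𝒢 := by
    intro H r hr W hW
    have h1 : W⁻¹ ∈ 𝒢 := by
      rw [h𝒢]
      apply key
      intro x
      have e1 : s₂ (x : Γ) = W⁻¹ * (r ⟨x, hk0 H x x.2⟩ : GL (Fin n) Ω) * W := hW ⟨x, hk0 H x x.2⟩
      have e2 : ρ (s₂ x) (ρ W⁻¹ u₀) = ρ W⁻¹ (ρ (r ⟨x, hk0 H x x.2⟩) u₀) := by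
        rw [← Module.End.mul_apply, ← map_mul, ← Module.End.mul_apply, ← map_mul]
        congr 2
        rw [e1]; group
      rw [e2, hμu, map_smul]
      congr 2
      have e3 : (1 : Γ) * x * 1⁻¹ ∈ H.comap π := by rw [one_mul, inv_one, mul_one]; exact hk0 H x x.2
      have e4 : (1 : Γ) * x * 1⁻¹ ∈ H₀.comap π := by rw [one_mul, inv_one, mul_one]; exact hk0 H₀ x x.2
      have e5 := mu_eq hopen hfr hd hcc μ hμ hr hr₀ 1 1 x e3 e4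
      have e6 : (⟨(1 : Γ) * x * 1⁻¹, e3⟩ : H.comap π) = ⟨x, hk0 H x x.2⟩ := Subtype.ext (by
        change (1 : Γ) * x * 1⁻¹ = x
        group)
      have e7 : (⟨(1 : Γ) * x * 1⁻¹, e4⟩ : H₀.comap π) = ⟨x, hk0 H₀ x x.2⟩ := Subtype.ext (by
        change (1 : Γ) * x * 1⁻¹ = x
        group)
      rw [e6, e7] at e5
      exact e5
    have h2 := 𝒢.inv_mem h1
    rwa [inv_inv] at h2
  -- the values are in `𝒢`
  have hsG : ∀ δ : Γ, s₂ δ ∈ 𝒢 := by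
    intro δ
    have h1 : (s₂ δ)⁻¹ ∈ 𝒢 := by
      rw [h𝒢]
      apply key
      intro x
      have hx' : δ * x * δ⁻¹ ∈ π.ker := Subgroup.Normal.conj_mem (H := π.ker) inferInstance x x.2 δ
      have e2 : ρ (s₂ x) (ρ (s₂ δ)⁻¹ u₀) = ρ (s₂ δ)⁻¹ (ρ (r₀ ⟨δ * x * δ⁻¹, hk0 H₀ _ hx'⟩) u₀) := by
        rw [← Module.End.mul_apply, ← map_mul, ← Module.End.mul_apply, ← map_mul]
        congr 2
        rw [← hs2r ⟨δ * x * δ⁻¹, hk0 H₀ _ hx'⟩]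
        change s₂ x * (s₂ δ)⁻¹ = (s₂ δ)⁻¹ * s₂ (δ * x * δ⁻¹)
        rw [map_mul, map_mul, map_inv]; group
      rw [e2, hμu, map_smul]
      congr 2
      have e4 : (1 : Γ) * x * 1⁻¹ ∈ H₀.comap π := by rw [one_mul, inv_one, mul_one]; exact hk0 H₀ x x.2
      have e5 := mu_eq hopen hfr hd hcc μ hμ hr₀ hr₀ δ 1 x (hk0 H₀ _ hx') e4
      have e7 : (⟨(1 : Γ) * x * 1⁻¹, e4⟩ : H₀.comap π) = ⟨x, hk0 H₀ x x.2⟩ := Subtype.ext (by
        change (1 : Γ) * x * 1⁻¹ = x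
        group)
      rw [e7] at e5
      exact e5
    have h2 := 𝒢.inv_mem h1
    rwa [inv_inv] at h2
  let s : Γ →* 𝒢 := s₂.codRestrict 𝒢 hsG
  have hsW : ∀ (H : Subgroup V) (r : H.comap π →* 𝒢), AttG π fr 𝒢 c H r →
        ∃ W : 𝒢, ∀ γ : H.comap π, s γ = W⁻¹ * r γ * W := by
    intro H r hr
    obtain ⟨W, hW⟩ := hs2W H r hr
    exact ⟨⟨W, hWG H r hr W hW⟩, fun γ => Subtype.ext (hW γ)⟩
  refine ⟨s, hs2c.subtype_mk _, ?_, hsW⟩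
  intro Q
  obtain ⟨g, H, hH, hg⟩ := hc (π (fr Q))
  obtain ⟨δ, rfl⟩ := hπ g
  obtain ⟨r, hr⟩ := hr H hH
  have h1 : δ * fr Q * δ⁻¹ ∈ H.comap π := by
    rw [Subgroup.mem_comap, map_mul, map_mul, map_inv]; exact hg
  obtain ⟨W, hW⟩ := hsW H r hr
  have h2 := hW ⟨δ * fr Q * δ⁻¹, h1⟩
  have h3 : IsConj (s (δ * fr Q * δ⁻¹)) (r ⟨δ * fr Q * δ⁻¹, h1⟩) := by
    rw [isConj_iff]
    refine ⟨W, ?_⟩
    rw [show s (δ * fr Q * δ⁻¹) = W⁻¹ * r ⟨δ * fr Q * δ⁻¹, h1⟩ * W from h2]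
    group
  have h4 : IsConj (s (fr Q)) (s (δ * fr Q * δ⁻¹)) := by
    rw [isConj_iff]
    exact ⟨s δ, by rw [map_mul, map_mul, map_inv]⟩
  exact (h4.trans h3).trans (conj_fr hfr hcc hr δ Q h1)

end

end Pool.Agent.L5helper16.GP
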