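import Pool.Agent.L5helper16.GP.F

/-!
# Stabilizers of lines, similitude groups of bilinear forms
-/

set_option autoImplicit false

namespace Pool.Agent.L5helper16.GP

open Matrix Topology

section

variable {Ω : Type*} [Field Ω] {n : ℕ} {U : Type*} [AddCommGroup U] [Module Ω U]

/-- the stabilizer of the line of `u₀` in the representation `ρ` of `GL_n` -/
def stab (ρ : GL (Fin n) Ω →* Module.End Ω U) (u₀ : U) : Subgroup (GL (Fin n) Ω) where
  carrier := {g | ∃ a : Ω, a ≠ 0 ∧ ρ g u₀ = a • u₀}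
  one_mem' := ⟨1, one_ne_zero, by rw [map_one, one_smul]; rfl⟩
  mul_mem' := by
    rintro g h ⟨a, ha0, ha⟩ ⟨b, hb0, hb⟩
    exact ⟨b * a, mul_ne_zero hb0 ha0, by rw [map_mul, Module.End.mul_apply, hb, map_smul, ha, mul_smul]⟩
  inv_mem' := by
    rintro g ⟨a, ha0, ha⟩
    refine ⟨a⁻¹, inv_ne_zero ha0, ?_⟩
    have h1 : ρ g⁻¹ (ρ g u₀) = u₀ := by
      rw [← Module.End.mul_apply, ← map_mul, inv_mul_cancel, map_one, Module.End.one_apply]
    rw [ha, map_smul] at h1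
    have h2 := congrArg (fun v => a⁻¹ • v) h1
    simp only [smul_smul, inv_mul_cancel₀ ha0, one_smul] at h2
    exact h2

lemma mem_stab (ρ : GL (Fin n) Ω →* Module.End Ω U) {u₀ : U} (hu : u₀ ≠ 0) (g : GL (Fin n) Ω) :
    g ∈ stab ρ u₀ ↔ ∃ a : Ω, ρ g u₀ = a • u₀ := by
  constructor
  · rintro ⟨a, -, ha⟩; exact ⟨a, ha⟩
  · rintro ⟨a, ha⟩
    refine ⟨a, ?_, ha⟩
    rintro rfl
    rw [zero_smul] at ha
    have h1 : ρ g⁻¹ (ρ g u₀) = u₀ := by
      rw [← Module.End.mul_apply, ← map_mul, inv_mul_cancel, map_one, Module.End.one_apply]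
    rw [ha, map_zero] at h1
    exact hu h1.symm

lemma ex_unit (ρ : GL (Fin n) Ω →* Module.End Ω U) (u₀ : U) (g : stab ρ u₀) : ∃ a : Ωˣ, ρ g u₀ = (a : Ω) • u₀ := by
  obtain ⟨a, ha0, ha⟩ := g.2
  exact ⟨Units.mk0 a ha0, ha⟩

lemma unit_uniq {u₀ : U} (hu : u₀ ≠ 0) {a b : Ωˣ} (h : (a : Ω) • u₀ = (b : Ω) • u₀) : a = b := by
  apply Units.ext
  have h2 : ((a : Ω) - b) • u₀ = 0 := by rw [sub_smul, h, sub_self]
  exact sub_eq_zero.mp ((smul_eq_zero.mp h2).resolve_right hu)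

/-- the character of the stabilizer on the line -/
noncomputable def chr (ρ : GL (Fin n) Ω →* Module.End Ω U) (u₀ : U) (hu : u₀ ≠ 0) : stab ρ u₀ →* Ωˣ :=
  MonoidHom.mk' (fun g => (ex_unit ρ u₀ g).choose) (by
    intro g g'
    apply unit_uniq hu
    have h1 := (ex_unit ρ u₀ (g * g')).choose_spec
    have h2 := (ex_unit ρ u₀ g).choose_spec
    have h3 := (ex_unit ρ u₀ g').choose_spec
    rw [← h1, Units.val_mul, mul_smul, smul_comm, ← h2, ← map_smul, ← h3, Subgroup.coe_mul, map_mul,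
      Module.End.mul_apply])

lemma chr_spec (ρ : GL (Fin n) Ω →* Module.End Ω U) (u₀ : U) (hu : u₀ ≠ 0) (g : stab ρ u₀) :
    ρ g u₀ = (chr ρ u₀ hu g : Ω) • u₀ := (ex_unit ρ u₀ g).choose_spec

/-- the action on bilinear forms -/
noncomputable def bil (Ω : Type*) [Field Ω] (n : ℕ) : GL (Fin n) Ω →* Module.End Ω (Matrix (Fin n) (Fin n) Ω) where
  toFun g := (LinearMap.mulLeft Ω ((g⁻¹ : GL (Fin n) Ω) : Matrix (Fin n) (Fin n) Ω)ᵀ).comp
    (LinearMap.mulRight Ω ((g⁻¹ : GL (Fin n) Ω) : Matrix (Fin n) (Fin n) Ω))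
  map_one' := by
    ext1 B
    simp
  map_mul' g h := by
    ext1 B
    simp only [LinearMap.comp_apply, LinearMap.mulLeft_apply, LinearMap.mulRight_apply, Module.End.mul_apply,
      _root_.mul_inv_rev, Units.val_mul, Matrix.transpose_mul]
    simp only [Matrix.mul_assoc]

lemma bil_apply (g : GL (Fin n) Ω) (B : Matrix (Fin n) (Fin n) Ω) : bil Ω n g B =
    ((g⁻¹ : GL (Fin n) Ω) : Matrix (Fin n) (Fin n) Ω)ᵀ * B * ((g⁻¹ : GL (Fin n) Ω) : Matrix (Fin n) (Fin n) Ω) := by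
  change ((g⁻¹ : GL (Fin n) Ω) : Matrix (Fin n) (Fin n) Ω)ᵀ * (B * ((g⁻¹ : GL (Fin n) Ω) : Matrix (Fin n) (Fin n) Ω)) = _
  rw [Matrix.mul_assoc]

/-- the similitude group of the bilinear form with the matrix `J` -/
noncomputable def sim (J : GL (Fin n) Ω) : Subgroup (GL (Fin n) Ω) := stab (bil Ω n) (J : Matrix (Fin n) (Fin n) Ω)

lemma mem_sim (J g : GL (Fin n) Ω) : g ∈ sim J ↔ ∃ a : Ω, a ≠ 0 ∧
    (g : Matrix (Fin n) (Fin n) Ω)ᵀ * J * g = a • (J : Matrix (Fin n) (Fin n) Ω) := by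
  have h1 : (g : Matrix (Fin n) (Fin n) Ω) * ((g⁻¹ : GL (Fin n) Ω) : Matrix (Fin n) (Fin n) Ω) = 1 := by
    rw [← Units.val_mul, mul_inv_cancel, Units.val_one]
  have h2 : ((g⁻¹ : GL (Fin n) Ω) : Matrix (Fin n) (Fin n) Ω) * (g : Matrix (Fin n) (Fin n) Ω) = 1 := by
    rw [← Units.val_mul, inv_mul_cancel, Units.val_one]
  have t1 : ((g⁻¹ : GL (Fin n) Ω) : Matrix (Fin n) (Fin n) Ω)ᵀ * (g : Matrix (Fin n) (Fin n) Ω)ᵀ = 1 := by
    rw [← Matrix.transpose_mul, h1, Matrix.transpose_one]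
  have t2 : (g : Matrix (Fin n) (Fin n) Ω)ᵀ * ((g⁻¹ : GL (Fin n) Ω) : Matrix (Fin n) (Fin n) Ω)ᵀ = 1 := by
    rw [← Matrix.transpose_mul, h2, Matrix.transpose_one]
  constructor
  · rintro ⟨a, ha0, ha⟩
    rw [bil_apply] at ha
    refine ⟨a⁻¹, inv_ne_zero ha0, ?_⟩
    have h3 := congrArg (fun B => a⁻¹ • ((g : Matrix (Fin n) (Fin n) Ω)ᵀ * B * (g : Matrix (Fin n) (Fin n) Ω))) ha
    simp only [Matrix.mul_smul, Matrix.smul_mul, smul_smul, inv_mul_cancel₀ ha0, one_smul] at h3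
    rw [← h3]
    congr 1
    calc (g : Matrix (Fin n) (Fin n) Ω)ᵀ * (((g⁻¹ : GL (Fin n) Ω) : Matrix (Fin n) (Fin n) Ω)ᵀ * J *
          ((g⁻¹ : GL (Fin n) Ω) : Matrix (Fin n) (Fin n) Ω)) * g
        = ((g : Matrix (Fin n) (Fin n) Ω)ᵀ * ((g⁻¹ : GL (Fin n) Ω) : Matrix (Fin n) (Fin n) Ω)ᵀ) * J *
          (((g⁻¹ : GL (Fin n) Ω) : Matrix (Fin n) (Fin n) Ω) * g) := by simp only [Matrix.mul_assoc]
      _ = J := by rw [t2, h2, Matrix.one_mul, Matrix.mul_one]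
  · rintro ⟨a, ha0, ha⟩
    refine ⟨a⁻¹, inv_ne_zero ha0, ?_⟩
    rw [bil_apply]
    have h3 := congrArg (fun B => a⁻¹ • (((g⁻¹ : GL (Fin n) Ω) : Matrix (Fin n) (Fin n) Ω)ᵀ * B *
      ((g⁻¹ : GL (Fin n) Ω) : Matrix (Fin n) (Fin n) Ω))) ha
    simp only [Matrix.mul_smul, Matrix.smul_mul, smul_smul, inv_mul_cancel₀ ha0, one_smul] at h3
    rw [← h3]
    congr 1
    calc ((g⁻¹ : GL (Fin n) Ω) : Matrix (Fin n) (Fin n) Ω)ᵀ * ((g : Matrix (Fin n) (Fin n) Ω)ᵀ * J * g) *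
          ((g⁻¹ : GL (Fin n) Ω) : Matrix (Fin n) (Fin n) Ω)
        = (((g⁻¹ : GL (Fin n) Ω) : Matrix (Fin n) (Fin n) Ω)ᵀ *
          (g : Matrix (Fin n) (Fin n) Ω)ᵀ) * J * (g * ((g⁻¹ : GL (Fin n) Ω) : Matrix (Fin n) (Fin n) Ω)) := by
          simp only [Matrix.mul_assoc]
      _ = J := by rw [t1, h1, Matrix.one_mul, Matrix.mul_one]

variable [TopologicalSpace Ω] [IsTopologicalRing Ω]

lemma chr_cont (J : GL (Fin n) Ω) (hu : (J : Matrix (Fin n) (Fin n) Ω) ≠ 0) :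
    Continuous (chr (bil Ω n) (J : Matrix (Fin n) (Fin n) Ω) hu) := by
  obtain ⟨i, j, hij⟩ : ∃ i j, (J : Matrix (Fin n) (Fin n) Ω) i j ≠ 0 := by
    by_contra hcon
    push Not at hcon
    exact hu (Matrix.ext hcon)
  set χ := chr (bil Ω n) (J : Matrix (Fin n) (Fin n) Ω) hu with hχ
  have key : Continuous fun g : stab (bil Ω n) (J : Matrix (Fin n) (Fin n) Ω) => ((χ g : Ωˣ) : Ω) := by
    have e : (fun g : stab (bil Ω n) (J : Matrix (Fin n) (Fin n) Ω) => ((χ g : Ωˣ) : Ω)) =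
        fun g : stab (bil Ω n) (J : Matrix (Fin n) (Fin n) Ω) =>
        ((((g : GL (Fin n) Ω)⁻¹ : GL (Fin n) Ω) : Matrix (Fin n) (Fin n) Ω)ᵀ * J *
          (((g : GL (Fin n) Ω)⁻¹ : GL (Fin n) Ω) : Matrix (Fin n) (Fin n) Ω)) i j *
          ((J : Matrix (Fin n) (Fin n) Ω) i j)⁻¹ := by
      funext g
      have h := chr_spec (bil Ω n) (J : Matrix (Fin n) (Fin n) Ω) hu g
      rw [bil_apply] at h
      rw [h, Matrix.smul_apply, smul_eq_mul, mul_assoc, mul_inv_cancel₀ hij, mul_one]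
    rw [e]
    refine Continuous.mul ?_ continuous_const
    have h1 : Continuous fun g : stab (bil Ω n) (J : Matrix (Fin n) (Fin n) Ω) =>
        (((g : GL (Fin n) Ω)⁻¹ : GL (Fin n) Ω) : Matrix (Fin n) (Fin n) Ω) :=
      Units.continuous_val.comp (continuous_inv.comp continuous_subtype_val)
    exact ((h1.matrix_transpose.matrix_mul continuous_const).matrix_mul h1).matrix_elem i j
  rw [Units.continuous_iff]
  refine ⟨key, ?_⟩
  have e : (fun g => (((χ g)⁻¹ : Ωˣ) : Ω)) = fun g => ((χ g⁻¹ : Ωˣ) : Ω) := by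
    funext g
    rw [map_inv]
  change Continuous fun g => (((χ g)⁻¹ : Ωˣ) : Ω)
  rw [e]
  exact key.comp continuous_inv

end

section

variable {Γ V X Ω : Type*} [Group Γ] [TopologicalSpace Γ] [IsTopologicalGroup Γ] [Group V] [MulAction Γ X]
  [Field Ω] [TopologicalSpace Ω] [IsTopologicalRing Ω] [T2Space Ω] {n : ℕ}

/-- **Patching for the similitude group of a nondegenerate bilinear form.** -/
theorem patchJ {π : Γ →* V} (hopen : IsOpen (π.ker : Set Γ)) {fr : X → Γ}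
    (hfr : ∀ (γ : Γ) (Q : X), fr (γ • Q) = γ * fr Q * γ⁻¹) (hd : Dense (Set.range fr)) (J : GL (Fin n) Ω)
    {c : X → sim J} (hcc : ∀ (γ : Γ) (Q : X), IsConj (c (γ • Q)) (c Q)) (hπ : Function.Surjective π)
    {S : Set (Subgroup V)} (hc : Covers S) (hS : Generates S)
    (hr : ∀ H ∈ S, ∃ r : H.comap π →* sim J, AttG π fr (sim J) c H r)
    (hirr : ∃ H ∈ S, ∃ r : H.comap π →* sim J, AttG π fr (sim J) c H r ∧ Spans (resK π H ((sim J).subtype.comp r))) :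
    ∃ s : Γ →* sim J, Continuous s ∧ (∀ Q : X, IsConj (s (fr Q)) (c Q)) ∧
      ∀ (H : Subgroup V) (r : H.comap π →* sim J), AttG π fr (sim J) c H r →
        ∃ W : sim J, ∀ γ : H.comap π, s γ = W⁻¹ * r γ * W := by
  rcases Nat.eq_zero_or_pos n with rfl | hn
  · refine ⟨1, continuous_const, fun Q => ?_, fun H r _ => ⟨1, fun γ => ?_⟩⟩
    · have : Subsingleton (sim J) := inferInstance
      rw [Subsingleton.elim ((1 : Γ →* sim J) (fr Q)) (c Q)]
    · exact Subsingleton.elim _ _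
  have : Nonempty (Fin n) := ⟨⟨0, hn⟩⟩
  have hu : (J : Matrix (Fin n) (Fin n) Ω) ≠ 0 := J.ne_zero
  refine patchG (𝒢 := sim J) hopen hfr hd hcc hπ hc hS (bil Ω n) (J : Matrix (Fin n) (Fin n) Ω) (mem_stab _ hu)
    (chr (bil Ω n) (J : Matrix (Fin n) (Fin n) Ω) hu) (chr_cont J hu) (chr_spec _ _ hu) hr ?_
  obtain ⟨H, hH, r, hr, hsp⟩ := hirr
  refine ⟨H, hH, r, hr, hsp, fun B hB => ?_⟩
  have hk0 : ∀ (x : Γ), x ∈ π.ker → x ∈ H.comap π := by
    intro x hx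
    rw [Subgroup.mem_comap, MonoidHom.mem_ker.mp hx]; exact H.one_mem
  -- `J⁻¹ B` commutes with the representation
  set T : Matrix (Fin n) (Fin n) Ω := ((J⁻¹ : GL (Fin n) Ω) : Matrix (Fin n) (Fin n) Ω) * B with hT
  have hcomm : ∀ x : π.ker, T * ((resK π H ((sim J).subtype.comp r) x : GL (Fin n) Ω) : Matrix (Fin n) (Fin n) Ω) =
      ((resK π H ((sim J).subtype.comp r) x : GL (Fin n) Ω) : Matrix (Fin n) (Fin n) Ω) * T := by
    intro x
    have hx := hB ⟨x, hk0 x x.2⟩ x.2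
    have hJ := chr_spec (bil Ω n) (J : Matrix (Fin n) (Fin n) Ω) hu (r ⟨x, hk0 x x.2⟩)
    have e : (resK π H ((sim J).subtype.comp r) x : GL (Fin n) Ω) = (r ⟨x, hk0 x x.2⟩ : GL (Fin n) Ω) := rfl
    rw [e]
    set g : GL (Fin n) Ω := (r ⟨x, hk0 x x.2⟩ : GL (Fin n) Ω) with hg
    set a : Ωˣ := chr (bil Ω n) (J : Matrix (Fin n) (Fin n) Ω) hu (r ⟨x, hk0 x x.2⟩) with ha
    rw [bil_apply] at hx hJ
    have h1 : ((g⁻¹ : GL (Fin n) Ω) : Matrix (Fin n) (Fin n) Ω) * (g : Matrix (Fin n) (Fin n) Ω) = 1 := by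
      rw [← Units.val_mul, inv_mul_cancel, Units.val_one]
    have h1' : (g : Matrix (Fin n) (Fin n) Ω) * ((g⁻¹ : GL (Fin n) Ω) : Matrix (Fin n) (Fin n) Ω) = 1 := by
      rw [← Units.val_mul, mul_inv_cancel, Units.val_one]
    have h2 : ((J⁻¹ : GL (Fin n) Ω) : Matrix (Fin n) (Fin n) Ω) * (J : Matrix (Fin n) (Fin n) Ω) = 1 := by
      rw [← Units.val_mul, inv_mul_cancel, Units.val_one]
    have h2' : (J : Matrix (Fin n) (Fin n) Ω) * ((J⁻¹ : GL (Fin n) Ω) : Matrix (Fin n) (Fin n) Ω) = 1 := by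
      rw [← Units.val_mul, mul_inv_cancel, Units.val_one]
    -- `(g⁻¹)ᵀ B = a B g` and `(g⁻¹)ᵀ J = a J g`
    have h3 : ((g⁻¹ : GL (Fin n) Ω) : Matrix (Fin n) (Fin n) Ω)ᵀ * B = (a : Ω) • (B * g) := by
      have := congrArg (fun M => M * (g : Matrix (Fin n) (Fin n) Ω)) hx
      simp only [Matrix.mul_assoc, h1, Matrix.mul_one, Matrix.smul_mul] at this
      exact this
    have h4 : ((g⁻¹ : GL (Fin n) Ω) : Matrix (Fin n) (Fin n) Ω)ᵀ * J = (a : Ω) • ((J : Matrix (Fin n) (Fin n) Ω) * g) := by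
      have := congrArg (fun M => M * (g : Matrix (Fin n) (Fin n) Ω)) hJ
      simp only [Matrix.mul_assoc, h1, Matrix.mul_one, Matrix.smul_mul] at this
      exact this
    have h5 : (a : Ω) • (((J⁻¹ : GL (Fin n) Ω) : Matrix (Fin n) (Fin n) Ω) * (B * g)) =
        (a : Ω) • ((g : Matrix (Fin n) (Fin n) Ω) * (((J⁻¹ : GL (Fin n) Ω) : Matrix (Fin n) (Fin n) Ω) * B)) := by
      calc (a : Ω) • (((J⁻¹ : GL (Fin n) Ω) : Matrix (Fin n) (Fin n) Ω) * (B * g))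
          = ((J⁻¹ : GL (Fin n) Ω) : Matrix (Fin n) (Fin n) Ω) * ((a : Ω) • (B * g)) := by rw [Matrix.mul_smul]
        _ = ((J⁻¹ : GL (Fin n) Ω) : Matrix (Fin n) (Fin n) Ω) *
            (((g⁻¹ : GL (Fin n) Ω) : Matrix (Fin n) (Fin n) Ω)ᵀ * B) := by rw [h3]
        _ = ((J⁻¹ : GL (Fin n) Ω) : Matrix (Fin n) (Fin n) Ω) *
            ((((g⁻¹ : GL (Fin n) Ω) : Matrix (Fin n) (Fin n) Ω)ᵀ * J) *
              (((J⁻¹ : GL (Fin n) Ω) : Matrix (Fin n) (Fin n) Ω) * B)) := by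
            simp only [Matrix.mul_assoc]
            rw [← Matrix.mul_assoc (J : Matrix (Fin n) (Fin n) Ω), h2', Matrix.one_mul]
        _ = _ := by
            rw [h4, Matrix.smul_mul, Matrix.mul_smul]
            congr 1
            simp only [Matrix.mul_assoc]
            rw [← Matrix.mul_assoc _ (J : Matrix (Fin n) (Fin n) Ω), h2, Matrix.one_mul]
    have h6 := congrArg (fun M => (a : Ω)⁻¹ • M) h5
    simp only [smul_smul, inv_mul_cancel₀ a.ne_zero, one_smul] at h6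
    rw [hT, Matrix.mul_assoc]
    exact h6
  have hall : ∀ M : Matrix (Fin n) (Fin n) Ω, T * M = M * T := by
    intro M
    have hM : M ∈ Submodule.span Ω (Set.range fun x : π.ker =>
        ((resK π H ((sim J).subtype.comp r) x : GL (Fin n) Ω) : Matrix (Fin n) (Fin n) Ω)) := by
      rw [show Submodule.span Ω _ = ⊤ from hsp]; trivial
    induction hM using Submodule.span_induction with
    | mem M hM => obtain ⟨x, rfl⟩ := hM; exact hcomm x
    | zero => simp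
    | add M M' _ _ h1 h2 => rw [mul_add, add_mul, h1, h2]
    | smul b M _ h1 => rw [Matrix.mul_smul, Matrix.smul_mul, h1]
  obtain ⟨a, ha⟩ : ∃ a : Ω, T = a • (1 : Matrix (Fin n) (Fin n) Ω) := by
    have h1 := mem_range_scalar_of_commute_single (M := T) (fun i j _ => (hall _).symm)
    obtain ⟨a, ha⟩ := h1
    refine ⟨a, ?_⟩
    rw [← ha, Matrix.scalar_apply, Matrix.smul_one_eq_diagonal]
  refine ⟨a, ?_⟩
  have h2' : (J : Matrix (Fin n) (Fin n) Ω) * ((J⁻¹ : GL (Fin n) Ω) : Matrix (Fin n) (Fin n) Ω) = 1 := by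
    rw [← Units.val_mul, mul_inv_cancel, Units.val_one]
  calc B = (J : Matrix (Fin n) (Fin n) Ω) * T := by rw [hT, ← Matrix.mul_assoc, h2', Matrix.one_mul]
    _ = a • (J : Matrix (Fin n) (Fin n) Ω) := by rw [ha, Matrix.mul_smul, Matrix.mul_one]

end

end Pool.Agent.L5helper16.GP
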